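import Mathlib
import Pool.Agent.Y535.PEG.Amb

/-!
Counting half turns along two intervals.
-/

set_option autoImplicit false
open Set

namespace Pool.Agent.Q155.Cusp

theorem fl1 {x : ℝ} (hc : 0 < Real.cos x) (hs : 0 < Real.sin x) :
    ⌊x / Real.pi⌋ = 2 * ⌊(x + Real.pi) / (2 * Real.pi)⌋ := by
  have hπ := Real.pi_pos
  obtain ⟨K, hK⟩ : ∃ K, K = ⌊(x + Real.pi) / (2 * Real.pi)⌋ := ⟨_, rfl⟩
  rw [← hK]
  have h1 := Int.floor_le ((x + Real.pi) / (2 * Real.pi))
  have h2 := Int.lt_floor_add_one ((x + Real.pi) / (2 * Real.pi))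
  rw [← hK] at h1 h2
  rw [le_div_iff₀ (by positivity)] at h1
  rw [div_lt_iff₀ (by positivity)] at h2
  rw [← Real.cos_sub_int_mul_two_pi x K] at hc
  rw [← Real.sin_sub_int_mul_two_pi x K] at hs
  have h3 : 0 < x - K * (2 * Real.pi) := by
    by_contra hcon
    push Not at hcon
    exact absurd hs (not_lt.2 (Real.sin_nonpos_of_nonpos_of_neg_pi_le hcon (by linarith)))
  have h4 : x - K * (2 * Real.pi) < Real.pi / 2 := by
    by_contra hcon
    push Not at hcon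
    exact absurd hc (not_lt.2 (Real.cos_nonpos_of_pi_div_two_le_of_le hcon (by linarith)))
  rw [Int.floor_eq_iff]
  push_cast
  rw [le_div_iff₀ hπ, div_lt_iff₀ hπ]
  constructor <;> linarith

theorem fl2 {x : ℝ} (hc : 0 < Real.cos x) (hs : 0 < Real.sin x) :
    ⌊x / Real.pi⌋ = 2 * ⌊(x + Real.pi / 2) / (2 * Real.pi)⌋ := by
  have hπ := Real.pi_pos
  obtain ⟨K, hK⟩ : ∃ K, K = ⌊(x + Real.pi / 2) / (2 * Real.pi)⌋ := ⟨_, rfl⟩
  rw [← hK]
  have h1 := Int.floor_le ((x + Real.pi / 2) / (2 * Real.pi))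
  have h2 := Int.lt_floor_add_one ((x + Real.pi / 2) / (2 * Real.pi))
  rw [← hK] at h1 h2
  rw [le_div_iff₀ (by positivity)] at h1
  rw [div_lt_iff₀ (by positivity)] at h2
  rw [← Real.cos_sub_int_mul_two_pi x K] at hc
  rw [← Real.sin_sub_int_mul_two_pi x K] at hs
  have h3 : 0 < x - K * (2 * Real.pi) := by
    by_contra hcon
    push Not at hcon
    exact absurd hs (not_lt.2 (Real.sin_nonpos_of_nonpos_of_neg_pi_le hcon (by linarith)))
  have h4 : x - K * (2 * Real.pi) < Real.pi / 2 := by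
    by_contra hcon
    push Not at hcon
    exact absurd hc (not_lt.2 (Real.cos_nonpos_of_pi_div_two_le_of_le hcon (by linarith)))
  rw [Int.floor_eq_iff]
  push_cast
  rw [le_div_iff₀ hπ, div_lt_iff₀ hπ]
  constructor <;> linarith

theorem fl3 {x : ℝ} (h : 0 < Real.cos x ∨ 0 < Real.sin x) :
    ⌊(x + Real.pi) / (2 * Real.pi)⌋ = ⌊(x + Real.pi / 2) / (2 * Real.pi)⌋ := by
  have hπ := Real.pi_pos
  obtain ⟨K, hK⟩ : ∃ K, K = ⌊(x + Real.pi) / (2 * Real.pi)⌋ := ⟨_, rfl⟩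
  rw [← hK]
  have h1 := Int.floor_le ((x + Real.pi) / (2 * Real.pi))
  have h2 := Int.lt_floor_add_one ((x + Real.pi) / (2 * Real.pi))
  rw [← hK] at h1 h2
  rw [le_div_iff₀ (by positivity)] at h1
  rw [div_lt_iff₀ (by positivity)] at h2
  have h3 : - (Real.pi / 2) ≤ x - K * (2 * Real.pi) := by
    by_contra hcon
    push Not at hcon
    rcases h with h | h
    · rw [← Real.cos_sub_int_mul_two_pi x K, ← Real.cos_neg] at h
      exact absurd h (not_lt.2 (Real.cos_nonpos_of_pi_div_two_le_of_le (by linarith) (by linarith)))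
    · rw [← Real.sin_sub_int_mul_two_pi x K] at h
      exact absurd h (not_lt.2 (Real.sin_nonpos_of_nonpos_of_neg_pi_le (by linarith)
        (by linarith)))
  symm
  rw [Int.floor_eq_iff, le_div_iff₀ (by positivity), div_lt_iff₀ (by positivity)]
  constructor <;> linarith

theorem st1 {V : Set ℝ} (hV : IsPreconnected V) {k : ℝ → ℝ} (hk : ContinuousOn k V)
    (h : ∀ v ∈ V, Real.sin (k v) = 0 → 0 < Real.cos (k v)) {v w : ℝ} (hv : v ∈ V) (hw : w ∈ V) :
    ⌊(k v + Real.pi) / (2 * Real.pi)⌋ = ⌊(k w + Real.pi) / (2 * Real.pi)⌋ := by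
  have hπ := Real.pi_pos
  refine Pool.Agent.Y535.PEG.floor_pc hV (f := fun v => (k v + Real.pi) / (2 * Real.pi))
    ((hk.add continuousOn_const).div_const _) (fun z hz n hn => ?_) hv hw
  rw [div_eq_iff (by positivity)] at hn
  have h1 := h z hz
  rw [show k z = n * (2 * Real.pi) - Real.pi by linarith, Real.cos_sub_pi, Real.sin_sub_pi,
    Real.cos_int_mul_two_pi] at h1
  have h2 : Real.sin (n * (2 * Real.pi)) = 0 := by
    have := Real.sin_int_mul_pi (2 * n)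
    push_cast at this
    rw [← this]
    congr 1
    ring
  rw [h2] at h1
  have := h1 (by simp)
  linarith

theorem st2 {V : Set ℝ} (hV : IsPreconnected V) {k : ℝ → ℝ} (hk : ContinuousOn k V)
    (h : ∀ v ∈ V, Real.cos (k v) = 0 → 0 < Real.sin (k v)) {v w : ℝ} (hv : v ∈ V) (hw : w ∈ V) :
    ⌊(k v + Real.pi / 2) / (2 * Real.pi)⌋ = ⌊(k w + Real.pi / 2) / (2 * Real.pi)⌋ := by
  have hπ := Real.pi_pos
  refine Pool.Agent.Y535.PEG.floor_pc hV (f := fun v => (k v + Real.pi / 2) / (2 * Real.pi))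
    ((hk.add continuousOn_const).div_const _) (fun z hz n hn => ?_) hv hw
  rw [div_eq_iff (by positivity)] at hn
  have h1 := h z hz
  have h2 : Real.sin (n * (2 * Real.pi)) = 0 := by
    have := Real.sin_int_mul_pi (2 * n)
    push_cast at this
    rw [← this]
    congr 1
    ring
  rw [show k z = n * (2 * Real.pi) - Real.pi / 2 by linarith, Real.cos_sub_pi_div_two,
    Real.sin_sub_pi_div_two, Real.cos_int_mul_two_pi, h2] at h1
  have := h1 rfl
  linarith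

/-- the two-stage count of half turns -/
theorem two_stage {a b : ℝ} (hab : a < b) {k1 k2 : ℝ → ℝ} (c1 : ContinuousOn k1 (Ioc a b))
    (c2 : ContinuousOn k2 (Ico a b)) (hm : k1 b = k2 a)
    (h1 : ∀ v ∈ Ioc a b, Real.sin (k1 v) = 0 → 0 < Real.cos (k1 v))
    (h2 : ∀ v ∈ Ico a b, Real.cos (k2 v) = 0 → 0 < Real.sin (k2 v))
    (h3 : 0 < Real.cos (k1 b) ∨ 0 < Real.sin (k1 b)) {v0 u0 : ℝ} (hv : v0 ∈ Ioc a b)
    (hu : u0 ∈ Ico a b) (cv : 0 < Real.cos (k1 v0)) (sv : 0 < Real.sin (k1 v0))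
    (cu : 0 < Real.cos (k2 u0)) (su : 0 < Real.sin (k2 u0)) :
    ⌊k1 v0 / Real.pi⌋ = ⌊k2 u0 / Real.pi⌋ := by
  rw [fl1 cv sv, fl2 cu su, st1 isPreconnected_Ioc c1 h1 hv ⟨hab, le_rfl⟩, fl3 h3, hm,
    st2 isPreconnected_Ico c2 h2 ⟨le_rfl, hab⟩ hu]

end Pool.Agent.Q155.Cusp
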