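import Mathlib

/-!
Two Lipschitz graphs starting at a common point, and squares with two vertices on the upper graph
and one on the lower graph: the fourth vertex is above the lower graph (area argument).
-/

set_option autoImplicit false
open Set MeasureTheory

namespace Pool.Agent.Q155.Cusp

/-- two functions with the Lipschitz constant `1 / 5`, both zero at `0` -/
structure Pr (f g : ℝ → ℝ) : Prop where
  hf : ∀ x y, |f x - f y| ≤ 1 / 5 * |x - y|
  hg : ∀ x y, |g x - g y| ≤ 1 / 5 * |x - y|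
  f0 : f 0 = 0
  g0 : g 0 = 0

variable {f g : ℝ → ℝ}

theorem lip_cont (hf : ∀ x y, |f x - f y| ≤ 1 / 5 * |x - y|) : Continuous f := by
  have : LipschitzWith (1 / 5) f := by
    refine LipschitzWith.of_dist_le_mul fun x y => ?_
    rw [Real.dist_eq, Real.dist_eq]
    simpa using hf x y
  exact this.continuous

theorem Pr.neg (h : Pr f g) : Pr (fun x => -g x) (fun x => -f x) where
  hf x y := by
    have := h.hg x y
    rwa [show -g x - -g y = -(g x - g y) by ring, abs_neg]
  hg x y := by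
    have := h.hf x y
    rwa [show -f x - -f y = -(f x - f y) by ring, abs_neg]
  f0 := by simp [h.g0]
  g0 := by simp [h.f0]

/-- upper estimate from the Lipschitz condition -/
theorem lip1 (hf : ∀ x y, |f x - f y| ≤ 1 / 5 * |x - y|) {x y : ℝ} (hxy : x ≤ y) :
    f y - f x ≤ 1 / 5 * (y - x) ∧ -(1 / 5 * (y - x)) ≤ f y - f x := by
  have := hf y x
  rw [abs_of_nonneg (by linarith : 0 ≤ y - x), abs_le] at this
  exact ⟨this.2, this.1⟩

/-- the primitive -/
noncomputable def prim (f : ℝ → ℝ) (x : ℝ) : ℝ := ∫ t in (0 : ℝ)..x, f t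

theorem prim_est (hf : ∀ x y, |f x - f y| ≤ 1 / 5 * |x - y|) (a b : ℝ) :
    |prim f b - prim f a - f a * (b - a)| ≤ 1 / 5 * (b - a) ^ 2 := by
  have hc := lip_cont hf
  have h1 : prim f b - prim f a = ∫ t in a..b, f t := by
    unfold prim
    rw [intervalIntegral.integral_interval_sub_left]
    · exact hc.intervalIntegrable _ _
    · exact hc.intervalIntegrable _ _
  have h2 : prim f b - prim f a - f a * (b - a) = ∫ t in a..b, (f t - f a) := by
    rw [intervalIntegral.integral_sub (hc.intervalIntegrable _ _) (by simp), h1,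
      intervalIntegral.integral_const, smul_eq_mul]
    ring
  rw [h2]
  have h3 := intervalIntegral.norm_integral_le_of_norm_le_const (a := a) (b := b)
    (f := fun t => f t - f a) (C := 1 / 5 * |b - a|) (fun x hx => ?_)
  · rw [Real.norm_eq_abs] at h3
    refine h3.trans (le_of_eq ?_)
    rw [mul_assoc, ← sq, sq_abs]
  · rw [Real.norm_eq_abs]
    refine (hf x a).trans ?_
    have : |x - a| ≤ |b - a| := by
      rw [Set.uIoc] at hx
      rcases le_total a b with h | h
      · rw [min_eq_left h, max_eq_right h] at hx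
        rw [abs_of_nonneg (by linarith [hx.1]), abs_of_nonneg (by linarith)]
        linarith [hx.2]
      · rw [min_eq_right h, max_eq_left h] at hx
        rw [abs_of_nonpos (by linarith [hx.2]), abs_of_nonpos (by linarith)]
        linarith [hx.1]
    linarith

/-- `f x - p` is the value of `g` at the foot of the square -/
def Sol (f g : ℝ → ℝ) (x p : ℝ) : Prop := f x - p = g (x + (f (x + p) - f x))

/-- height of the fourth vertex over `g` -/
def HH (f g : ℝ → ℝ) (x p : ℝ) : ℝ := f (x + p) - p - g (x + p + (f (x + p) - f x))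

/-- the potential -/
noncomputable def Pot (f g : ℝ → ℝ) (x p : ℝ) : ℝ :=
  ((f (x + p) - f x) ^ 2 - p ^ 2) / 2 + (prim f (x + p) - prim f x) -
    (prim g (x + p + (f (x + p) - f x)) - prim g (x + (f (x + p) - f x)))

theorem Pr.exists_sol (h : Pr f g) {x : ℝ} (hx : g x < f x) : ∃ p, 0 < p ∧ Sol f g x p := by
  have hcf := lip_cont h.hf
  have hcg := lip_cont h.hg
  set F : ℝ → ℝ := fun p => f x - p - g (x + (f (x + p) - f x)) with hF
  have hFc : Continuous F := by
    rw [hF]
    have h1 : Continuous fun p => f (x + p) := hcf.comp (by fun_prop)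
    have h2 : Continuous fun p => g (x + (f (x + p) - f x)) := hcg.comp (by fun_prop)
    fun_prop
  have h0 : 0 < F 0 := by simp only [hF]; simp; linarith
  have h1 : F (2 * (f x - g x)) < 0 := by
    simp only [hF]
    have e1 := h.hf (x + 2 * (f x - g x)) x
    rw [show x + 2 * (f x - g x) - x = 2 * (f x - g x) by ring,
      abs_of_pos (by linarith : 0 < 2 * (f x - g x))] at e1
    have e2 := h.hg (x + (f (x + 2 * (f x - g x)) - f x)) x
    rw [show x + (f (x + 2 * (f x - g x)) - f x) - x = f (x + 2 * (f x - g x)) - f x by ring] at e2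
    have e3 := (abs_le.1 e2).1
    linarith
  obtain ⟨p, hp, hp0⟩ := intermediate_value_Icc' (by linarith : (0 : ℝ) ≤ 2 * (f x - g x))
    hFc.continuousOn ⟨h1.le, h0.le⟩
  refine ⟨p, ?_, ?_⟩
  · rcases eq_or_lt_of_le hp.1 with he | hl
    · rw [← he] at hp0; linarith
    · exact hl
  · unfold Sol
    simp only [hF] at hp0
    linarith

/-- two solutions -/
theorem Pr.two (h : Pr f g) {x x' p p' : ℝ} (hxx : x ≤ x') (h1 : Sol f g x p)
    (h2 : Sol f g x' p') : |p' - p| ≤ 1 / 2 * (x' - x) ∧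
    |(f (x' + p') - f x') - (f (x + p) - f x)| ≤ 1 / 2 * (x' - x) ∧
    1 / 5 * (x' - x) ≤ (x' + p' + (f (x' + p') - f x')) - (x + p + (f (x + p) - f x)) := by
  unfold Sol at h1 h2
  set v := f (x + p) - f x with hv
  set v' := f (x' + p') - f x' with hv'
  have a1 := h.hf x' x
  rw [abs_of_nonneg (by linarith : 0 ≤ x' - x)] at a1
  have a2 := h.hf (x' + p') (x + p)
  have a3 := h.hg (x' + v') (x + v)
  have b1 : |x' + p' - (x + p)| ≤ (x' - x) + |p' - p| := by
    rw [show x' + p' - (x + p) = (x' - x) + (p' - p) by ring]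
    refine (abs_add_le _ _).trans ?_
    rw [abs_of_nonneg (by linarith : 0 ≤ x' - x)]
  have b2 : |x' + v' - (x + v)| ≤ (x' - x) + |v' - v| := by
    rw [show x' + v' - (x + v) = (x' - x) + (v' - v) by ring]
    refine (abs_add_le _ _).trans ?_
    rw [abs_of_nonneg (by linarith : 0 ≤ x' - x)]
  have b3 : |v' - v| ≤ 1 / 5 * ((x' - x) + |p' - p|) + 1 / 5 * (x' - x) := by
    rw [show v' - v = (f (x' + p') - f (x + p)) - (f x' - f x) by rw [hv, hv']; ring]
    refine (abs_sub _ _).trans ?_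
    linarith
  have b4 : |p' - p| ≤ 1 / 5 * (x' - x) + 1 / 5 * ((x' - x) + |v' - v|) := by
    rw [show p' - p = (f x' - f x) - (g (x' + v') - g (x + v)) by linarith]
    refine (abs_sub _ _).trans ?_
    linarith
  have c1 : |p' - p| ≤ 1 / 2 * (x' - x) := by linarith
  have c2 : |v' - v| ≤ 1 / 2 * (x' - x) := by linarith
  refine ⟨c1, c2, ?_⟩
  have d1 := (abs_le.1 c1).1
  have d2 := lip1 h.hf (x := x + p) (y := x' + p') (by linarith)
  have d3 := lip1 h.hf hxx
  have d4 : v' - v = (f (x' + p') - f (x + p)) - (f x' - f x) := by rw [hv, hv']; ring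
  linarith [d2.2, d3.1]

/-- the potential does not increase much if the fourth vertex is low -/
theorem Pr.pot_step (h : Pr f g) {x x' p p' : ℝ} (hxx : x ≤ x') (h1 : Sol f g x p)
    (h2 : Sol f g x' p') (hH : HH f g x p ≤ 0) :
    Pot f g x' p' ≤ Pot f g x p + HH f g x p * (1 / 5 * (x' - x)) + 3 * (x' - x) ^ 2 := by
  obtain ⟨c1, c2, c3⟩ := h.two hxx h1 h2
  unfold Sol at h1
  unfold Pot
  unfold HH at hH ⊢
  clear h2
  set v := f (x + p) - f x with hv
  set v' := f (x' + p') - f x' with hv'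
  set H := f (x + p) - p - g (x + p + v) with hHd
  have e1 := prim_est h.hf (x + p) (x' + p')
  have e2 := prim_est h.hf x x'
  have e3 := prim_est h.hg (x + p + v) (x' + p' + v')
  have e4 := prim_est h.hg (x + v) (x' + v')
  obtain ⟨c1a, c1b⟩ := abs_le.1 c1
  obtain ⟨c2a, c2b⟩ := abs_le.1 c2
  have sq1 : (x' + p' - (x + p)) ^ 2 ≤ 9 / 4 * (x' - x) ^ 2 := by
    have : (x' + p' - (x + p)) ^ 2 ≤ (3 / 2 * (x' - x)) ^ 2 := by
      apply sq_le_sq'
      · linarith
      · linarith
    linarith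
  have sq3 : (x' + p' + v' - (x + p + v)) ^ 2 ≤ 4 * (x' - x) ^ 2 := by
    have : (x' + p' + v' - (x + p + v)) ^ 2 ≤ (2 * (x' - x)) ^ 2 := by
      apply sq_le_sq'
      · linarith
      · linarith
    linarith
  have sq4 : (x' + v' - (x + v)) ^ 2 ≤ 9 / 4 * (x' - x) ^ 2 := by
    have : (x' + v' - (x + v)) ^ 2 ≤ (3 / 2 * (x' - x)) ^ 2 := by
      apply sq_le_sq'
      · linarith
      · linarith
    linarith
  have sq5 : (v' - v) ^ 2 ≤ 1 / 4 * (x' - x) ^ 2 := by
    have : (v' - v) ^ 2 ≤ (1 / 2 * (x' - x)) ^ 2 := by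
      apply sq_le_sq'
      · linarith
      · linarith
    linarith
  have hHD : H * (x' + p' + v' - (x + p + v)) ≤ H * (1 / 5 * (x' - x)) :=
    mul_le_mul_of_nonpos_left c3 hH
  obtain ⟨-, e1b⟩ := abs_le.1 e1
  obtain ⟨e2a, -⟩ := abs_le.1 e2
  obtain ⟨e3a, -⟩ := abs_le.1 e3
  obtain ⟨-, e4b⟩ := abs_le.1 e4
  have hfA : f (x + p) = f x + v := by rw [hv]; ring
  have hgC : g (x + v) = f x - p := h1.symm
  have hgD : g (x + p + v) = f x + v - p - H := by rw [hHd]; linarith
  rw [hfA] at e1b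
  rw [hgC] at e4b
  rw [hgD] at e3a
  have hp2 : 0 ≤ (p' - p) ^ 2 := sq_nonneg _
  have id : (v' ^ 2 - p' ^ 2) / 2 - (v ^ 2 - p ^ 2) / 2 + (f x + v) * (x' + p' - (x + p))
      - f x * (x' - x) - (f x + v - p - H) * (x' + p' + v' - (x + p + v))
      + (f x - p) * (x' + v' - (x + v)) =
      H * (x' + p' + v' - (x + p + v)) + (v' - v) ^ 2 / 2 - (p' - p) ^ 2 / 2 := by ring
  clear_value v v' H
  clear e1 e2 e3 e4 hfA hgC hgD c1 c2 c1a c1b c2a c2b c3 hv hv' hHd h1 hH h
  generalize (x' + p' - (x + p)) ^ 2 = q1 at *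
  generalize (x' + p' + v' - (x + p + v)) ^ 2 = q3 at *
  generalize (x' + v' - (x + v)) ^ 2 = q4 at *
  generalize (v' - v) ^ 2 = q5 at *
  generalize (p' - p) ^ 2 = q6 at *
  generalize (f x + v) * (x' + p' - (x + p)) = r1 at *
  generalize (f x + v - p - H) * (x' + p' + v' - (x + p + v)) = r3 at *
  generalize (f x - p) * (x' + v' - (x + v)) = r4 at *
  generalize f x * (x' - x) = r2 at *
  generalize H * (x' + p' + v' - (x + p + v)) = r5 at *
  generalize hd : (x' - x) ^ 2 = d at *
  have hd0 : 0 ≤ d := by rw [← hd]; exact sq_nonneg _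
  linarith

end Pool.Agent.Q155.Cusp
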