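import Mathlib
import Pool.Agent.Q155.Cusp.Area

/-!
The fourth vertex is above the lower graph.
-/

set_option autoImplicit false
open Set

namespace Pool.Agent.Q155.Cusp

variable {f g : ℝ → ℝ}

theorem Pr.sol_le (h : Pr f g) {x p : ℝ} (hx : 0 ≤ x) (hp : 0 ≤ p) (h1 : Sol f g x p) :
    p ≤ 1 / 2 * x := by
  unfold Sol at h1
  have e1 := lip1 h.hf hx
  have e2 := h.hg (x + (f (x + p) - f x)) 0
  have e3 := lip1 h.hf (by linarith : x ≤ x + p)
  rw [h.g0, sub_zero, sub_zero] at e2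
  have e4 : |x + (f (x + p) - f x)| ≤ x + 1 / 5 * p := by
    rw [abs_le]
    constructor <;> linarith [e3.1, e3.2]
  have e5 := (abs_le.1 e2).1
  rw [h.f0] at e1
  linarith [e1.1]

theorem Pr.pot_upper (h : Pr f g) {x p : ℝ} (hx : 0 ≤ x) (hp : 0 ≤ p) (h1 : Sol f g x p) :
    Pot f g x p ≤ 2 * x ^ 2 := by
  have hpx := h.sol_le hx hp h1
  have e0 := lip1 h.hf hx
  rw [h.f0] at e0
  have e3 := lip1 h.hf (by linarith : x ≤ x + p)
  unfold Sol at h1
  unfold Pot
  set v := f (x + p) - f x with hv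
  have e5 := prim_est h.hf x (x + p)
  have e6 := prim_est h.hg (x + v) (x + p + v)
  have e7 := h.hg (x + v) 0
  rw [h.g0, sub_zero, sub_zero] at e7
  have e8 : |x + v| ≤ x + 1 / 5 * p := by
    rw [abs_le]
    constructor <;> linarith [e3.1, e3.2]
  have e9 := (abs_le.1 e7).1
  obtain ⟨-, e5b⟩ := abs_le.1 e5
  obtain ⟨e6a, -⟩ := abs_le.1 e6
  have e10 : v ^ 2 ≤ 1 / 25 * p ^ 2 := by
    have : v ^ 2 ≤ (1 / 5 * p) ^ 2 := by
      apply sq_le_sq' <;> linarith [e3.1, e3.2]
    linarith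
  have e11 : x + p - x = p := by ring
  have e12 : x + p + v - (x + v) = p := by ring
  rw [e11] at e5b
  rw [e12] at e6a
  have e13 : f x * p ≤ 1 / 5 * x * p := mul_le_mul_of_nonneg_right (by linarith [e0.1]) hp
  have e14 : -(1 / 5 * (x + 1 / 5 * p)) * p ≤ g (x + v) * p :=
    mul_le_mul_of_nonneg_right (by linarith) hp
  have e15 : p * p ≤ x * x := mul_self_le_mul_self hp (by linarith)
  have e16 : x * p ≤ x * x := mul_le_mul_of_nonneg_left (by linarith) hx
  nlinarith

theorem Pr.pot_lower (h : Pr f g) {x p : ℝ} (h1 : Sol f g x p) :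
    1 / 10 * p ^ 2 ≤ Pot f g x p := by
  unfold Sol at h1
  unfold Pot
  set v := f (x + p) - f x with hv
  have e5 := prim_est h.hf x (x + p)
  have e6 := prim_est h.hg (x + v) (x + p + v)
  obtain ⟨e5a, -⟩ := abs_le.1 e5
  obtain ⟨-, e6b⟩ := abs_le.1 e6
  have e11 : x + p - x = p := by ring
  have e12 : x + p + v - (x + v) = p := by ring
  rw [e11] at e5a
  rw [e12, ← h1] at e6b
  nlinarith [sq_nonneg v]

/-- local monotonicity with a uniform step -/
theorem anti_of_step {φ : ℝ → ℝ} {a b δ : ℝ} (hδ : 0 < δ) (hab : a ≤ b)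
    (h : ∀ x x', a ≤ x → x ≤ x' → x' ≤ b → x' ≤ x + δ → φ x' ≤ φ x) : φ b ≤ φ a := by
  have key : ∀ n : ℕ, ∀ x, a ≤ x → x ≤ b → x ≤ a + n * δ → φ x ≤ φ a := by
    intro n
    induction n with
    | zero =>
      intro x h1 h2 h3
      have : x = a := by
        simp at h3
        linarith
      rw [this]
    | succ n ih =>
      intro x h1 h2 h3
      push_cast at h3
      rcases le_total x (a + δ) with h4 | h4
      · exact h a x le_rfl h1 h2 h4
      · exact (h (x - δ) x (by linarith) (by linarith) h2 (by linarith)).trans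
          (ih (x - δ) (by linarith) (by linarith) (by linarith))
  obtain ⟨n, hn⟩ := exists_nat_ge ((b - a) / δ)
  rw [div_le_iff₀ hδ] at hn
  exact key n b hab le_rfl (by linarith)

/-- **the fourth vertex is above the lower graph** -/
theorem Pr.above (h : Pr f g) {m : ℝ} (hpos : ∀ x, 0 < x → x ≤ m → g x < f x)
    (nosq : ∀ x p, 0 < x → 0 < p → x + 2 * p ≤ m → Sol f g x p → HH f g x p ≠ 0) {x1 p1 : ℝ}
    (hx1 : 0 < x1) (hp1 : 0 < p1) (hm : x1 + 2 * p1 ≤ m) (h1 : Sol f g x1 p1) :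
    0 < HH f g x1 p1 := by
  classical
  by_contra hcon
  push Not at hcon
  have hcon' : HH f g x1 p1 < 0 := lt_of_le_of_ne hcon (nosq x1 p1 hx1 hp1 hm h1)
  -- the family of solutions
  have ex : ∀ x, ∃ p, 0 < x → x ≤ x1 → (0 < p ∧ Sol f g x p) := by
    intro x
    by_cases hx : 0 < x ∧ x ≤ x1
    · obtain ⟨p, hp⟩ := h.exists_sol (hpos x hx.1 (by linarith))
      exact ⟨p, fun _ _ => hp⟩
    · exact ⟨0, fun h1 h2 => absurd ⟨h1, h2⟩ hx⟩
  choose P hP using ex
  have hP1 : P x1 = p1 := by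
    have := (h.two le_rfl h1 (hP x1 hx1 le_rfl).2).1
    rw [sub_self, mul_zero] at this
    exact sub_eq_zero.1 (abs_nonpos_iff.1 this)
  have hrange : ∀ x, 0 < x → x ≤ x1 → x + 2 * P x ≤ m := by
    intro x hx hx'
    have := (h.two hx' (hP x hx hx').2 h1).1
    have := (abs_le.1 this).1
    linarith
  have hcf := lip_cont h.hf
  have hcg := lip_cont h.hg
  -- continuity of the height
  have hcont : ContinuousOn (fun x => HH f g x (P x)) (Ioc 0 x1) := by
    have hPc : ContinuousOn P (Ioc 0 x1) := by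
      rw [Metric.continuousOn_iff]
      intro x hx ε hε
      refine ⟨ε, hε, fun y hy hxy => ?_⟩
      rw [Real.dist_eq] at hxy ⊢
      rcases le_total x y with hl | hl
      · have := (h.two hl (hP x hx.1 hx.2).2 (hP y hy.1 hy.2).2).1
        rw [abs_of_nonneg (by linarith : 0 ≤ y - x)] at hxy
        linarith
      · have := (h.two hl (hP y hy.1 hy.2).2 (hP x hx.1 hx.2).2).1
        rw [abs_sub_comm] at hxy this
        rw [abs_of_nonneg (by linarith : 0 ≤ x - y)] at hxy
        linarith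
    unfold HH
    have e1 : ContinuousOn (fun x => f (x + P x)) (Ioc 0 x1) :=
      hcf.comp_continuousOn (continuousOn_id.add hPc)
    have e2 : ContinuousOn (fun x => g (x + P x + (f (x + P x) - f x))) (Ioc 0 x1) :=
      hcg.comp_continuousOn ((continuousOn_id.add hPc).add (e1.sub hcf.continuousOn))
    exact (e1.sub hPc).sub e2
  have hneg : ∀ x, 0 < x → x ≤ x1 → HH f g x (P x) < 0 := by
    intro x hx hx'
    by_contra hc
    push Not at hc
    have hsub : Icc x x1 ⊆ Ioc 0 x1 := fun y hy => ⟨by linarith [hy.1], hy.2⟩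
    obtain ⟨y, hy, hy0⟩ := intermediate_value_Icc' hx' (hcont.mono hsub)
      (show (0 : ℝ) ∈ Icc _ _ from ⟨by rw [hP1]; exact hcon, hc⟩)
    have hy' := hsub hy
    exact nosq y (P y) hy'.1 (hP y hy'.1 hy'.2).1 (hrange y hy'.1 hy'.2) (hP y hy'.1 hy'.2).2 hy0
  -- a small parameter
  obtain ⟨a, ha0, ha1, ha2⟩ : ∃ a, 0 < a ∧ a ≤ x1 ∧ 2 * a ^ 2 < 1 / 10 * p1 ^ 2 := by
    refine ⟨min x1 (p1 / 5), lt_min hx1 (by positivity), min_le_left _ _, ?_⟩
    have h2 : min x1 (p1 / 5) ≤ p1 / 5 := min_le_right _ _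
    have h3 : 0 < min x1 (p1 / 5) := lt_min hx1 (by positivity)
    have h4 : min x1 (p1 / 5) ^ 2 ≤ (p1 / 5) ^ 2 := pow_le_pow_left₀ h3.le h2 2
    nlinarith [mul_pos hp1 hp1]
  have hsub : Icc a x1 ⊆ Ioc 0 x1 := fun y hy => ⟨by linarith [hy.1], hy.2⟩
  obtain ⟨y, hy, hmax⟩ := isCompact_Icc.exists_isMaxOn ⟨a, le_rfl, ha1⟩ (hcont.mono hsub)
  set M := -HH f g y (P y) with hM
  have hM0 : 0 < M := by
    have := hneg y (hsub hy).1 (hsub hy).2
    rw [hM]; linarith
  have hstep := anti_of_step (φ := fun x => Pot f g x (P x)) (a := a) (b := x1) (δ := M / 15)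
    (by positivity) ha1 (fun x x' hx hxx hx' hd => by
      have q1 : 0 < x := by linarith
      have q2 : x ≤ x1 := by linarith
      have q3 : 0 < x' := by linarith
      have e := h.pot_step hxx (hP x q1 q2).2 (hP x' q3 hx').2 (hneg x q1 q2).le
      have e2 : HH f g x (P x) ≤ -M := by
        have := hmax (show x ∈ Icc a x1 from ⟨hx, q2⟩)
        simp only [Set.mem_ofPred_eq] at this
        rw [hM]; linarith
      have e3 : HH f g x (P x) * (1 / 5 * (x' - x)) ≤ -M * (1 / 5 * (x' - x)) :=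
        mul_le_mul_of_nonneg_right e2 (by linarith)
      have e4 : (x' - x) * (x' - x) ≤ (M / 15) * (x' - x) :=
        mul_le_mul_of_nonneg_right (by linarith) (by linarith)
      nlinarith)
  rw [hP1] at hstep
  have l1 := h.pot_lower h1
  have l2 := h.pot_upper ha0.le (hP a ha0 ha1).1.le (hP a ha0 ha1).2
  linarith

end Pool.Agent.Q155.Cusp
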