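import Mathlib
import Pool.Agent.Q155.Cusp.Sone

/-!
Squares over chords of a thin tip.
-/

set_option autoImplicit false
open Set

namespace Pool.Agent.Q155.Cusp

variable {f g : ℝ → ℝ}

/-- the open thin region -/
def Thin (f g : ℝ → ℝ) (m : ℝ) (x y : ℝ) : Prop := 0 < x ∧ x < m ∧ g x < y ∧ y < f x

/-- the two graphs -/
def OnC (f g : ℝ → ℝ) (x y : ℝ) : Prop := 0 ≤ x ∧ (y = f x ∨ y = g x)

/-- the setting: a thin tip without squares -/
structure Tp (f g : ℝ → ℝ) (m : ℝ) : Prop where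
  pr : Pr f g
  pos : ∀ x, 0 < x → x ≤ m → g x < f x
  up : ∀ x p, 0 < x → 0 < p → x + 2 * p ≤ m → Sol f g x p → 0 < HH f g x p
  dn : ∀ x p, 0 < x → 0 < p → x + 2 * p ≤ m → Sol (fun x => -g x) (fun x => -f x) x p →
    0 < HH (fun x => -g x) (fun x => -f x) x p

theorem Tp.mk' {m : ℝ} (h : Pr f g) (hpos : ∀ x, 0 < x → x ≤ m → g x < f x)
    (nosq : ∀ x p, 0 < x → 0 < p → x + 2 * p ≤ m → Sol f g x p → HH f g x p ≠ 0)
    (nosq' : ∀ x p, 0 < x → 0 < p → x + 2 * p ≤ m → Sol (fun x => -g x) (fun x => -f x) x p →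
      HH (fun x => -g x) (fun x => -f x) x p ≠ 0) : Tp f g m :=
  ⟨h, hpos, fun _ _ h1 h2 h3 h4 => h.above hpos nosq h1 h2 h3 h4,
    fun _ _ h1 h2 h3 h4 => h.neg.above (fun x h5 h6 => neg_lt_neg (hpos x h5 h6)) nosq' h1 h2 h3 h4⟩

theorem Tp.neg {m : ℝ} (h : Tp f g m) : Tp (fun x => -g x) (fun x => -f x) m where
  pr := h.pr.neg
  pos x h1 h2 := neg_lt_neg (h.pos x h1 h2)
  up := h.dn
  dn := by
    have e1 : (fun x => -(fun x => -f x) x) = f := by funext x; simp
    have e2 : (fun x => -(fun x => -g x) x) = g := by funext x; simp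
    rw [e1, e2]
    exact h.up

/-- chord on the upper graph -/
theorem Tp.claimA {m : ℝ} (h : Tp f g m) {x ρ : ℝ} (hx : 0 ≤ x) (hxρ : x < ρ) (hm : 2 * ρ ≤ m)
    (hC : OnC f g (x + (f ρ - f x)) (f x - (ρ - x))) :
    Thin f g m (ρ + (f ρ - f x)) (f ρ - (ρ - x)) := by
  have e1 := lip1 h.pr.hf hxρ.le
  have e2 := h.pr.hf (x + (f ρ - f x)) x
  rw [show x + (f ρ - f x) - x = f ρ - f x by ring] at e2
  have e3 : |f ρ - f x| ≤ 1 / 5 * (ρ - x) := abs_le.2 ⟨by linarith [e1.2], e1.1⟩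
  have e4 := (abs_le.1 e2).1
  have e5 := (abs_le.1 e2).2
  obtain ⟨hC0, hC1⟩ := hC
  have e6 := h.pr.hf (ρ + (f ρ - f x)) ρ
  rw [show ρ + (f ρ - f x) - ρ = f ρ - f x by ring] at e6
  have e7 := (abs_le.1 e6).1
  have hCg : f x - (ρ - x) = g (x + (f ρ - f x)) := by
    rcases hC1 with h1 | h1
    · exfalso
      rw [← h1] at e4
      linarith
    · exact h1
  have hx0 : 0 < x := by
    rcases eq_or_lt_of_le hx with h0 | h0
    · exfalso
      rw [← h0] at hCg e1 e3
      rw [h.pr.f0] at hCg e1 e3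
      have e8 := h.pr.hg (0 + (f ρ - 0)) 0
      rw [h.pr.g0, ← hCg] at e8
      have e9 := (abs_le.1 e8).1
      rw [show (0 + (f ρ - 0) - 0 : ℝ) = f ρ - 0 by ring] at e9
      linarith
    · exact h0
  have hS : Sol f g x (ρ - x) := by
    unfold Sol
    rw [show x + (ρ - x) = ρ by ring]
    exact hCg
  have hH := h.up x (ρ - x) hx0 (by linarith) (by linarith) hS
  unfold HH at hH
  rw [show x + (ρ - x) = ρ by ring] at hH
  have e10 := (abs_le.1 e3).1
  have e11 := (abs_le.1 e3).2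
  exact ⟨by linarith, by linarith, by linarith, by linarith⟩

/-- chord from the upper graph to the lower graph -/
theorem Tp.claimB {m : ℝ} (h : Tp f g m) {x ρ : ℝ} (hx : 0 < x) (hxρ : x ≤ ρ) (hm : 2 * ρ ≤ m)
    (hC : OnC f g (x + (f ρ - g x)) (g x - (ρ - x))) :
    Thin f g m (ρ + (f ρ - g x)) (f ρ - (ρ - x)) := by
  have hρ : 0 < ρ := by linarith
  have hG := h.pos ρ hρ (by linarith)
  have e1 := lip1 h.pr.hg hxρ
  have e2 := lip1 h.pr.hf hρ.le
  have e3 := lip1 h.pr.hg hx.le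
  rw [h.pr.f0] at e2
  rw [h.pr.g0] at e3
  obtain ⟨hC0, hC1⟩ := hC
  -- lower bound for the height of the chord
  have hlow : -(1 / 5 * (ρ - x)) < f ρ - g x := by linarith [e1.2]
  rcases hC1 with h1 | h1
  · -- on the upper graph: impossible
    exfalso
    have e4 := h.pr.hf ρ (x + (f ρ - g x))
    rw [← h1] at e4
    have e5 := (abs_le.1 e4).2
    have e6 : |ρ - (x + (f ρ - g x))| ≤ (ρ - x) + |f ρ - g x| := by
      rw [show ρ - (x + (f ρ - g x)) = (ρ - x) - (f ρ - g x) by ring]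
      refine (abs_sub _ _).trans ?_
      rw [abs_of_nonneg (by linarith : 0 ≤ ρ - x)]
    rcases le_total 0 (f ρ - g x) with h2 | h2
    · rw [abs_of_nonneg h2] at e6
      have h3 : f ρ - g x = 0 := by linarith
      have h4 : ρ - x = 0 := by linarith
      have : x = ρ := by linarith
      rw [this] at h3
      linarith
    · rw [abs_of_nonpos h2] at e6
      have h4 : ρ - x = 0 := by linarith
      have : x = ρ := by linarith
      rw [this] at h2
      linarith
  · -- on the lower graph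
    have e4 := h.pr.hg (x + (f ρ - g x)) x
    rw [show x + (f ρ - g x) - x = f ρ - g x by ring, ← h1] at e4
    have e5 := (abs_le.1 e4).1
    have hpos : 0 < f ρ - g x := by
      by_contra hcon
      push Not at hcon
      rw [abs_of_nonpos hcon] at e5
      have h4 : ρ - x = 0 := by linarith
      have : x = ρ := by linarith
      rw [this] at hcon
      linarith
    rw [abs_of_pos hpos] at e5
    have hS : Sol (fun x => -g x) (fun x => -f x) x (f ρ - g x) := by
      unfold Sol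
      simp only
      rw [← h1, show x + (-(g x - (ρ - x)) - -g x) = ρ by ring]
      ring
    have hH := h.dn x (f ρ - g x) hx hpos (by linarith [e2.1, e3.2]) hS
    unfold HH at hH
    simp only at hH
    rw [← h1, show x + (f ρ - g x) + (-(g x - (ρ - x)) - -g x) = ρ + (f ρ - g x) by ring] at hH
    have e6 := lip1 h.pr.hg (by linarith : x + (f ρ - g x) ≤ ρ + (f ρ - g x))
    rw [← h1] at e6
    exact ⟨by linarith, by linarith [e2.1, e3.2], by linarith [e6.1], by linarith⟩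

/-- the vertical chord -/
theorem Tp.claimM {m : ℝ} (h : Tp f g m) {ρ : ℝ} (hρ : 0 < ρ) (hm : 2 * ρ ≤ m)
    (hG : f ρ - g ρ < f (ρ + (f ρ - g ρ)) - g (ρ + (f ρ - g ρ))) :
    Thin f g m (ρ + (f ρ - g ρ)) (f ρ) ∨ Thin f g m (ρ + (f ρ - g ρ)) (g ρ) := by
  have h0 := h.pos ρ hρ (by linarith)
  have e1 := lip1 h.pr.hf (by linarith : ρ ≤ ρ + (f ρ - g ρ))
  have e2 := lip1 h.pr.hg (by linarith : ρ ≤ ρ + (f ρ - g ρ))
  have e3 := lip1 h.pr.hf hρ.le
  have e4 := lip1 h.pr.hg hρ.le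
  rw [h.pr.f0] at e3
  rw [h.pr.g0] at e4
  by_cases hc : f ρ < f (ρ + (f ρ - g ρ))
  · left
    exact ⟨by linarith, by linarith [e3.1, e4.2], by linarith [e2.1], hc⟩
  · right
    push Not at hc
    exact ⟨by linarith, by linarith [e3.1, e4.2], by linarith, by linarith [e1.2]⟩

end Pool.Agent.Q155.Cusp
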