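import Mathlib
import Pool.Agent.Y535.PEG.Tw4
import Pool.Agent.Q155.Cusp.Claims

/-!
Local coordinates at a thin tip of a closed curve.
-/

set_option autoImplicit false
open Complex Set Topology Metric

namespace Pool.Agent.Q155.Cusp

open Pool.Agent.H763R2 Pool.Agent.H763R2.An Pool.Agent.W675.Peg Pool.Agent.TH569.Peg
open Pool.Agent.H763R2.Dm (NoSq)
open Pool.Agent.Y535.PEG

/-- local coordinate of a point of the curve -/
noncomputable def zt (c : ℝ → ℂ) (w : ℂ) (s t : ℝ) : ℂ := w * (c s - c t)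

/-- the point with the given local coordinates -/
noncomputable def pt (c : ℝ → ℂ) (w : ℂ) (s : ℝ) (x y : ℝ) : ℂ := c s - (x + y * I) / w

/-- the curve turns back at a thin tip -/
def Tip (c : ℝ → ℂ) (s : ℝ) : Prop := ∃ ρ > 0, ∃ w : ℂ,
  (∀ x y : ℝ, s - ρ < x → x < y → y ≤ s → 5 * |(w * (c y - c x)).im| < (w * (c y - c x)).re) ∧
  (∀ x y : ℝ, s ≤ x → x < y → y < s + ρ → 5 * |(w * (c y - c x)).im| < -(w * (c y - c x)).re)

/-- local data of a thin tip -/
structure TD (c : ℝ → ℂ) (w : ℂ) (s r m : ℝ) (f g : ℝ → ℝ) : Prop where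
  w0 : w ≠ 0
  r0 : 0 < r
  r1 : r < 1 / 4
  m0 : 0 < m
  pr : Pr f g
  inc : ∀ t, s - r ≤ t → t ≤ s → f (zt c w s t).re = (zt c w s t).im
  out : ∀ t, s ≤ t → t ≤ s + r → g (zt c w s t).re = (zt c w s t).im
  dec : ∀ x y, s - r ≤ x → x < y → y ≤ s → (zt c w s y).re < (zt c w s x).re
  asc : ∀ x y, s ≤ x → x < y → y ≤ s + r → (zt c w s x).re < (zt c w s y).re
  m1 : m ≤ (zt c w s (s - r)).re
  m2 : m ≤ (zt c w s (s + r)).re

variable {c : ℝ → ℂ} {w : ℂ} {s r m : ℝ} {f g : ℝ → ℝ}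

theorem zt_self (c : ℝ → ℂ) (w : ℂ) (s : ℝ) : zt c w s s = 0 := by simp [zt]

theorem pt_zt (hw : w ≠ 0) (t : ℝ) : pt c w s (zt c w s t).re (zt c w s t).im = c t := by
  unfold pt
  rw [re_add_im]
  unfold zt
  field_simp
  ring

theorem zt_cont (L : Loop c) : Continuous (zt c w s) := by
  have := L.cont
  unfold zt
  fun_prop

theorem ext_lip {T : Set ℝ} {X Y : ℝ → ℝ} (h : ∀ t ∈ T, ∀ t' ∈ T, |Y t - Y t'| ≤ 1 / 5 * |X t - X t'|) :
    ∃ f : ℝ → ℝ, (∀ x y, |f x - f y| ≤ 1 / 5 * |x - y|) ∧ ∀ t ∈ T, f (X t) = Y t := by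
  classical
  obtain ⟨F, hF⟩ : ∃ F : ℝ → ℝ, ∀ x, F x = Y (Function.invFunOn X T x) := ⟨_, fun _ => rfl⟩
  have inv : ∀ t ∈ T, Function.invFunOn X T (X t) ∈ T ∧ X (Function.invFunOn X T (X t)) = X t :=
    fun t ht => ⟨Function.invFunOn_mem ⟨t, ht, rfl⟩, Function.invFunOn_eq ⟨t, ht, rfl⟩⟩
  have hFX : ∀ t ∈ T, F (X t) = Y t := fun t ht => by
    obtain ⟨h1, h2⟩ := inv t ht
    have := h _ h1 t ht
    rw [h2, sub_self, abs_zero, mul_zero] at this
    rw [hF]
    exact sub_eq_zero.1 (abs_eq_zero.1 (le_antisymm this (abs_nonneg _)))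
  have hL : LipschitzOnWith (1 / 5) F (X '' T) := by
    refine LipschitzOnWith.of_dist_le_mul ?_
    rintro _ ⟨t, ht, rfl⟩ _ ⟨t', ht', rfl⟩
    rw [hFX t ht, hFX t' ht', Real.dist_eq, Real.dist_eq]
    have := h t ht t' ht'
    simpa using this
  obtain ⟨f, hf, he⟩ := hL.extend_real
  refine ⟨f, fun x y => ?_, fun t ht => ?_⟩
  · have := hf.dist_le_mul x y
    rw [Real.dist_eq, Real.dist_eq] at this
    simpa using this
  · rw [← he ⟨t, ht, rfl⟩, hFX t ht]

theorem TD.shrink (T : TD c w s r m f g) {m' : ℝ} (h0 : 0 < m') (h : m' ≤ m) :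
    TD c w s r m' f g :=
  ⟨T.w0, T.r0, T.r1, h0, T.pr, T.inc, T.out, T.dec, T.asc, h.trans T.m1, h.trans T.m2⟩

theorem TD.rev (T : TD c w s r m f g) : TD (fun t => c (-t)) w (-s) r m g f where
  w0 := T.w0
  r0 := T.r0
  r1 := T.r1
  m0 := T.m0
  pr := ⟨T.pr.hg, T.pr.hf, T.pr.g0, T.pr.f0⟩
  inc t h1 h2 := by
    have := T.out (-t) (by linarith) (by linarith)
    simpa [zt] using this
  out t h1 h2 := by
    have := T.inc (-t) (by linarith) (by linarith)
    simpa [zt] using this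
  dec x y h1 h2 h3 := by
    have := T.asc (-y) (-x) (by linarith) (by linarith) (by linarith)
    simpa [zt] using this
  asc x y h1 h2 h3 := by
    have := T.dec (-y) (-x) (by linarith) (by linarith) (by linarith)
    simpa [zt] using this
  m1 := by
    have := T.m2
    unfold zt at this ⊢
    simp only
    rwa [neg_neg, show -(-s - r) = s + r by ring]
  m2 := by
    have := T.m1
    unfold zt at this ⊢
    simp only
    rwa [neg_neg, show -(-s + r) = s - r by ring]

theorem TD.inc_re (T : TD c w s r m f g) {t : ℝ} (h1 : s - r ≤ t) (h2 : t ≤ s) :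
    0 ≤ (zt c w s t).re := by
  rcases lt_or_eq_of_le h2 with h | h
  · have := T.dec t s h1 h le_rfl
    rw [zt_self] at this
    exact this.le
  · rw [h, zt_self]
    simp

theorem TD.out_re (T : TD c w s r m f g) {t : ℝ} (h1 : s ≤ t) (h2 : t ≤ s + r) :
    0 ≤ (zt c w s t).re := by
  rcases lt_or_eq_of_le h1 with h | h
  · have := T.asc s t le_rfl h h2
    rw [zt_self] at this
    exact this.le
  · rw [← h, zt_self]
    simp

/-- the parameter on the incoming branch -/
theorem TD.par_inc (T : TD c w s r m f g) (L : Loop c) {x : ℝ} (h1 : 0 ≤ x) (h2 : x ≤ m) :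
    ∃ t, s - r ≤ t ∧ t ≤ s ∧ (zt c w s t).re = x := by
  have hc : Continuous fun t => (zt c w s t).re := continuous_re.comp (zt_cont L)
  have hmem : x ∈ Icc (zt c w s s).re (zt c w s (s - r)).re := by
    rw [zt_self]
    exact ⟨h1, h2.trans T.m1⟩
  obtain ⟨t, ht, hx⟩ := intermediate_value_Icc' (by linarith [T.r0]) hc.continuousOn hmem
  exact ⟨t, ht.1, ht.2, hx⟩

theorem TD.par_out (T : TD c w s r m f g) (L : Loop c) {x : ℝ} (h1 : 0 ≤ x) (h2 : x ≤ m) :
    ∃ t, s ≤ t ∧ t ≤ s + r ∧ (zt c w s t).re = x := by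
  have hc : Continuous fun t => (zt c w s t).re := continuous_re.comp (zt_cont L)
  have hmem : x ∈ Icc (zt c w s s).re (zt c w s (s + r)).re := by
    rw [zt_self]
    exact ⟨h1, h2.trans T.m2⟩
  obtain ⟨t, ht, hx⟩ := intermediate_value_Icc (by linarith [T.r0]) hc.continuousOn hmem
  exact ⟨t, ht.1, ht.2, hx⟩

theorem TD.mem_f (T : TD c w s r m f g) (L : Loop c) {x y : ℝ} (h1 : 0 ≤ x) (h2 : x ≤ m)
    (h3 : y = f x) : pt c w s x y ∈ range c := by
  obtain ⟨t, t1, t2, t3⟩ := T.par_inc L h1 h2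
  refine ⟨t, ?_⟩
  rw [h3, ← t3, T.inc t t1 t2, pt_zt T.w0]

theorem TD.mem_g (T : TD c w s r m f g) (L : Loop c) {x y : ℝ} (h1 : 0 ≤ x) (h2 : x ≤ m)
    (h3 : y = g x) : pt c w s x y ∈ range c := by
  obtain ⟨t, t1, t2, t3⟩ := T.par_out L h1 h2
  refine ⟨t, ?_⟩
  rw [h3, ← t3, T.out t t1 t2, pt_zt T.w0]

theorem TD.ne (T : TD c w s r m f g) (L : Loop c) (J : Inj c) {x : ℝ} (h1 : 0 < x) (h2 : x ≤ m) :
    f x ≠ g x := by
  intro h
  obtain ⟨t, t1, t2, t3⟩ := T.par_inc L h1.le h2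
  obtain ⟨u, u1, u2, u3⟩ := T.par_out L h1.le h2
  have e1 := T.inc t t1 t2
  have e2 := T.out u u1 u2
  rw [t3] at e1
  rw [u3] at e2
  have e3 : zt c w s t = zt c w s u := by
    apply Complex.ext
    · rw [t3, u3]
    · rw [← e1, ← e2, h]
  have e4 : c t = c u := by
    unfold zt at e3
    have := mul_left_cancel₀ T.w0 e3
    simpa using this
  have hts : t < s := by
    rcases lt_or_eq_of_le t2 with h | h
    · exact h
    · exfalso
      rw [h, zt_self] at t3
      simp only [zero_re] at t3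
      exact absurd t3 h1.ne
  exact J t u (by linarith) (by linarith [T.r1]) e4

theorem TD.sign (T : TD c w s r m f g) (L : Loop c) (J : Inj c) :
    (∀ x, 0 < x → x ≤ m → g x < f x) ∨ (∀ x, 0 < x → x ≤ m → f x < g x) := by
  have hf := lip_cont T.pr.hf
  have hg := lip_cont T.pr.hg
  have hk : ContinuousOn (fun x => f x - g x) (Ioc 0 m) := (hf.sub hg).continuousOn
  have hne : ∀ x ∈ Ioc 0 m, f x - g x ≠ 0 := fun x hx => sub_ne_zero.2 (T.ne L J hx.1 hx.2)
  rcases lt_or_gt_of_ne (T.ne L J T.m0 le_rfl) with h | h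
  · right
    intro x h1 h2
    have := sign_pre isPreconnected_Ioc hk hne (z := x) (w := m) ⟨h1, h2⟩ ⟨T.m0, le_rfl⟩
    have h3 : f m - g m < 0 := by linarith
    by_contra hcon
    push Not at hcon
    have := mul_nonpos_of_nonneg_of_nonpos (sub_nonneg.2 hcon) h3.le
    linarith
  · left
    intro x h1 h2
    have := sign_pre isPreconnected_Ioc hk hne (z := x) (w := m) ⟨h1, h2⟩ ⟨T.m0, le_rfl⟩
    have h3 : 0 < f m - g m := by linarith
    have := (mul_pos_iff_of_pos_right h3).1 this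
    linarith

/-- points of the curve near the tip -/
theorem TD.onC (T : TD c w s r m f g) (L : Loop c) (J : Inj c) :
    ∃ δ > 0, ∀ x y, |x| < δ → |y| < δ → pt c w s x y ∈ range c → OnC f g x y := by
  obtain ⟨ρ, hρ, hn⟩ := near_par L J T.r0
  have hw : 0 < ‖w‖ := norm_pos_iff.2 T.w0
  refine ⟨ρ * ‖w‖ / 2, by positivity, fun x y hx hy ⟨t, ht⟩ => ?_⟩
  have h1 : ‖c t - c s‖ < ρ := by
    rw [ht]
    unfold pt
    rw [sub_sub_cancel_left, norm_neg, norm_div, div_lt_iff₀ hw]
    have : ‖(x : ℂ) + y * I‖ ≤ |x| + |y| := by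
      refine (norm_add_le _ _).trans ?_
      simp
    linarith
  obtain ⟨n, e, he, hte⟩ := hn t s h1
  have h2 : c t = c (s + e) := by
    rw [hte]
    exact L.per_int _ _
  rw [abs_lt] at he
  have h3 : zt c w s (s + e) = x + y * I := by
    unfold zt
    rw [← h2, ht]
    unfold pt
    rw [sub_sub_cancel, mul_div_cancel₀ _ T.w0]
  have h4 : (zt c w s (s + e)).re = x := by rw [h3]; simp
  have h5 : (zt c w s (s + e)).im = y := by rw [h3]; simp
  rcases le_total e 0 with h | h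
  · have e1 := T.inc (s + e) (by linarith) (by linarith)
    have e2 := T.inc_re (t := s + e) (by linarith) (by linarith)
    rw [h4, h5] at e1
    rw [h4] at e2
    exact ⟨e2, Or.inl e1.symm⟩
  · have e1 := T.out (s + e) (by linarith) (by linarith)
    have e2 := T.out_re (t := s + e) (by linarith) (by linarith)
    rw [h4, h5] at e1
    rw [h4] at e2
    exact ⟨e2, Or.inr e1.symm⟩

/-- the data exist -/
theorem Tip.data (h : Tip c s) {ε : ℝ} (hε : 0 < ε) :
    ∃ w r m f g, r < ε ∧ TD c w s r m f g := by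
  obtain ⟨ρ, hρ, w, h1, h2⟩ := h
  obtain ⟨r, r0, r1, r2, r3⟩ : ∃ r > 0, r < ρ ∧ r < ε ∧ r < 1 / 4 := by
    refine ⟨min (min ρ ε) (1 / 4) / 2, by positivity, ?_, ?_, ?_⟩
    · have := (min_le_left (min ρ ε) (1 / 4)).trans (min_le_left _ _)
      linarith
    · have := (min_le_left (min ρ ε) (1 / 4)).trans (min_le_right _ _)
      linarith
    · have := min_le_right (min ρ ε) (1 / 4)
      linarith
  have e1 : ∀ x y, zt c w s x - zt c w s y = w * (c y - c x) := fun x y => by
    unfold zt; ring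
  have k1 : ∀ x y, s - r ≤ x → x < y → y ≤ s →
      5 * |(zt c w s x).im - (zt c w s y).im| < (zt c w s x).re - (zt c w s y).re := by
    intro x y a1 a2 a3
    have := h1 x y (by linarith) a2 a3
    rw [← e1] at this
    simpa using this
  have k2 : ∀ x y, s ≤ x → x < y → y ≤ s + r →
      5 * |(zt c w s y).im - (zt c w s x).im| < (zt c w s y).re - (zt c w s x).re := by
    intro x y a1 a2 a3
    have := h2 x y a1 a2 (by linarith)
    rw [← e1, ← abs_neg] at this
    have e2 : -(zt c w s x - zt c w s y).re = (zt c w s y).re - (zt c w s x).re := by simp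
    have e3 : -(zt c w s x - zt c w s y).im = (zt c w s y).im - (zt c w s x).im := by simp
    rwa [e2, e3] at this
  obtain ⟨f, hf, hf2⟩ := ext_lip (T := Icc (s - r) s) (X := fun t => (zt c w s t).re)
    (Y := fun t => (zt c w s t).im) (by
      intro t ht t' ht'
      rcases lt_trichotomy t t' with h | h | h
      · have := k1 t t' ht.1 h ht'.2
        have h5 := le_abs_self ((zt c w s t).re - (zt c w s t').re)
        linarith
      · simp [h]
      · have := k1 t' t ht'.1 h ht.2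
        have h5 := le_abs_self ((zt c w s t').re - (zt c w s t).re)
        rw [abs_sub_comm (zt c w s t).im, abs_sub_comm (zt c w s t).re]
        linarith)
  obtain ⟨g, hg, hg2⟩ := ext_lip (T := Icc s (s + r)) (X := fun t => (zt c w s t).re)
    (Y := fun t => (zt c w s t).im) (by
      intro t ht t' ht'
      rcases lt_trichotomy t t' with h | h | h
      · have := k2 t t' ht.1 h ht'.2
        have h5 := le_abs_self ((zt c w s t').re - (zt c w s t).re)
        rw [abs_sub_comm (zt c w s t).im, abs_sub_comm (zt c w s t).re]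
        linarith
      · simp [h]
      · have := k2 t' t ht'.1 h ht.2
        have h5 := le_abs_self ((zt c w s t).re - (zt c w s t').re)
        linarith)
  have hr1 : s - r < s := by linarith
  have hr2 : s < s + r := by linarith
  have d1 : ∀ x y, s - r ≤ x → x < y → y ≤ s → (zt c w s y).re < (zt c w s x).re := by
    intro x y a1 a2 a3
    have := k1 x y a1 a2 a3
    have h5 := abs_nonneg ((zt c w s x).im - (zt c w s y).im)
    linarith
  have d2 : ∀ x y, s ≤ x → x < y → y ≤ s + r → (zt c w s x).re < (zt c w s y).re := by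
    intro x y a1 a2 a3
    have := k2 x y a1 a2 a3
    have h5 := abs_nonneg ((zt c w s y).im - (zt c w s x).im)
    linarith
  have m1 := d1 (s - r) s le_rfl hr1 le_rfl
  have m2 := d2 s (s + r) le_rfl hr2 le_rfl
  rw [zt_self] at m1 m2
  have w0 : w ≠ 0 := by
    rintro rfl
    simp [zt] at m1
  refine ⟨w, r, min (zt c w s (s - r)).re (zt c w s (s + r)).re, f, g, r2, w0, r0, r3,
    lt_min m1 m2, ⟨hf, hg, ?_, ?_⟩, fun t a1 a2 => hf2 t ⟨a1, a2⟩, fun t a1 a2 => hg2 t ⟨a1, a2⟩,
    d1, d2, min_le_left _ _, min_le_right _ _⟩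
  · have := hf2 s ⟨hr1.le, le_rfl⟩
    simp only [zt_self] at this
    exact this
  · have := hg2 s ⟨le_rfl, hr2.le⟩
    simp only [zt_self] at this
    exact this

end Pool.Agent.Q155.Cusp
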