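import Mathlib
import Pool.Agent.Q155.Cusp.Local
import Pool.Agent.Q155.Cusp.Angle

/-!
Chords across a thin tip turn by an even number of half turns.
-/

set_option autoImplicit false
open Complex Set Topology Metric

namespace Pool.Agent.Q155.Cusp

open Pool.Agent.H763R2 Pool.Agent.H763R2.An Pool.Agent.W675.Peg Pool.Agent.TH569.Peg
open Pool.Agent.H763R2.Dm (NoSq)
open Pool.Agent.Y535.PEG

variable {c : ℝ → ℂ} {w : ℂ} {s r m : ℝ} {f g : ℝ → ℝ}

/-- a square in local coordinates -/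
theorem sq_pt (hw : w ≠ 0) (nosq : NoSq (range c)) {x y u v : ℝ} (hu : u ≠ 0)
    (h1 : pt c w s x y ∈ range c) (h2 : pt c w s (x + u) (y + v) ∈ range c)
    (h3 : pt c w s (x + u - v) (y + v + u) ∈ range c)
    (h4 : pt c w s (x - v) (y + u) ∈ range c) : False := by
  refine nosq ⟨pt c w s x y, -(u + v * I) / w, ?_, h1, ?_, ?_, ?_⟩
  · intro h
    rw [div_eq_zero_iff] at h
    rcases h with h | h
    · have := congrArg Complex.re h
      simp at this
      exact hu this
    · exact hw h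
  · convert h2 using 1
    unfold pt
    field_simp
    push_cast
    ring
  · convert h3 using 1
    unfold pt
    field_simp
    push_cast
    ring_nf
    rw [I_sq]
    ring
  · convert h4 using 1
    unfold pt
    field_simp
    push_cast
    ring_nf
    rw [I_sq]
    ring

theorem TD.tp (T : TD c w s r m f g) (L : Loop c) (nosq : NoSq (range c))
    (hpos : ∀ x, 0 < x → x ≤ m → g x < f x) : Tp f g m := by
  refine Tp.mk' T.pr hpos ?_ ?_
  · intro x p hx hp hm hS hH
    have hpx := T.pr.sol_le hx.le hp.le hS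
    unfold Sol at hS
    unfold HH at hH
    have e := lip1 T.pr.hf (by linarith : x ≤ x + p)
    obtain ⟨v, hv⟩ : ∃ v, v = f (x + p) - f x := ⟨_, rfl⟩
    rw [← hv] at hS hH e
    refine sq_pt T.w0 nosq (x := x + v) (y := f x - p) (u := p) (v := v) hp.ne'
      (T.mem_g L (by linarith [e.1]) (by linarith [e.2]) hS)
      (T.mem_g L (by linarith [e.1]) (by linarith [e.2]) ?_)
      (T.mem_f L (by linarith [e.1]) (by linarith [e.2]) ?_)
      (T.mem_f L (by linarith [e.1]) (by linarith [e.2]) ?_)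
    · rw [show x + v + p = x + p + v by ring]
      linarith
    · rw [show x + v + p - v = x + p by ring, show f x - p + v + p = f x + v by ring, hv]
      ring
    · rw [show x + v - v = x by ring]
      ring
  · intro x p hx hp hm hS hH
    have hpx := T.pr.neg.sol_le hx.le hp.le hS
    unfold Sol at hS
    unfold HH at hH
    simp only at hS hH
    have e := lip1 T.pr.hg (by linarith : x ≤ x + p)
    obtain ⟨v, hv⟩ : ∃ v, v = g (x + p) - g x := ⟨_, rfl⟩
    rw [show -g (x + p) - -g x = -v by rw [hv]; ring] at hS hH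
    rw [← hv] at e
    refine sq_pt T.w0 nosq (x := x) (y := g x) (u := p) (v := v) hp.ne'
      (T.mem_g L (by linarith [e.1]) (by linarith [e.2]) rfl)
      (T.mem_g L (by linarith [e.1]) (by linarith [e.2]) ?_)
      (T.mem_f L (by linarith [e.1]) (by linarith [e.2]) ?_)
      (T.mem_f L (by linarith [e.1]) (by linarith [e.2]) ?_)
    · rw [hv]; ring
    · rw [show x + p - v = x + p + -v by ring]
      linarith
    · rw [show x - v = x + -v by ring]
      linarith

theorem thin_pre (hf : Continuous f) (hg : Continuous g) (hpos : ∀ x, 0 < x → x ≤ m → g x < f x) :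
    IsPreconnected {p : ℝ × ℝ | Thin f g m p.1 p.2} := by
  have e : {p : ℝ × ℝ | Thin f g m p.1 p.2} =
      (fun p : ℝ × ℝ => ((p.1, g p.1 + p.2 * (f p.1 - g p.1)) : ℝ × ℝ)) ''
        (Ioo 0 m ×ˢ Ioo (0:ℝ) 1) := by
    ext ⟨x, y⟩
    constructor
    · rintro ⟨h1, h2, h3, h4⟩
      simp only at h1 h2 h3 h4
      have h5 := hpos x h1 h2.le
      refine ⟨(x, (y - g x) / (f x - g x)), ⟨⟨h1, h2⟩, ?_, ?_⟩, ?_⟩
      · simp only
        apply div_pos <;> linarith
      · simp only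
        rw [div_lt_one (by linarith)]
        linarith
      · simp only [Prod.mk.injEq, true_and]
        rw [div_mul_cancel₀ _ (by linarith)]
        ring
    · rintro ⟨⟨x', τ⟩, ⟨⟨h1, h2⟩, h3, h4⟩, he⟩
      simp only [Prod.mk.injEq] at h1 h2 h3 h4 he
      obtain ⟨rfl, rfl⟩ := he
      have h5 := hpos x' h1 h2.le
      refine ⟨h1, h2, ?_, ?_⟩
      · simp only
        have := mul_pos h3 (sub_pos.2 h5)
        linarith
      · simp only
        have := mul_pos (sub_pos.2 h4) (sub_pos.2 h5)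
        nlinarith
  rw [e]
  refine IsPreconnected.image (isPreconnected_Ioo.prod isPreconnected_Ioo) _ ?_
  fun_prop

theorem pt_cont (c : ℝ → ℂ) (w : ℂ) (s : ℝ) : Continuous fun p : ℝ × ℝ => pt c w s p.1 p.2 := by
  unfold pt
  fun_prop

/-- the sign of the thin region -/
theorem TD.sgn (T : TD c w s r m f g) (L : Loop c) 
    (loc : ∀ x y, |x| ≤ 2 * m → |y| ≤ 2 * m → pt c w s x y ∈ range c → OnC f g x y)
    (hpos : ∀ x, 0 < x → x ≤ m → g x < f x) :
    ∃ n : ℤ, ∀ x y, Thin f g m x y → 0 < Real.cos (n * Real.pi) * mgc c (pt c w s x y) := by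
  have hf := lip_cont T.pr.hf
  have hg := lip_cont T.pr.hg
  have hV := thin_pre hf hg hpos
  have hk : ContinuousOn (fun p : ℝ × ℝ => mgc c (pt c w s p.1 p.2))
      {p : ℝ × ℝ | Thin f g m p.1 p.2} :=
    ((mgc_sg L).cont.comp (pt_cont c w s)).continuousOn
  have hne : ∀ p ∈ {p : ℝ × ℝ | Thin f g m p.1 p.2}, mgc c (pt c w s p.1 p.2) ≠ 0 := by
    rintro ⟨x, y⟩ ⟨h1, h2, h3, h4⟩ h0
    simp only at h1 h2 h3 h4 h0
    have hmem := ((mgc_sg L).zero L).1 h0
    have e1 := lip1 T.pr.hf h1.le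
    have e2 := lip1 T.pr.hg h1.le
    rw [T.pr.f0] at e1
    rw [T.pr.g0] at e2
    have := loc x y (by rw [abs_of_pos h1]; linarith) (by
      rw [abs_le]; constructor <;> linarith [e1.2, e2.1]) hmem
    rcases this.2 with h | h
    · linarith
    · linarith
  have hm := T.m0
  have h0 : ((m / 2, (g (m / 2) + f (m / 2)) / 2) : ℝ × ℝ) ∈ {p : ℝ × ℝ | Thin f g m p.1 p.2} := by
    have := hpos (m / 2) (by linarith) (by linarith)
    exact ⟨by simp only; linarith, by simp only; linarith, by simp only; linarith,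
      by simp only; linarith⟩
  rcases lt_or_gt_of_ne (hne _ h0) with h | h
  · refine ⟨1, fun x y hxy => ?_⟩
    have := sign_pre hV hk hne (z := (x, y)) hxy h0
    have : mgc c (pt c w s x y) < 0 := by
      by_contra hcon
      push Not at hcon
      have := mul_nonpos_of_nonneg_of_nonpos hcon h.le
      linarith
    simp only [Int.cast_one, one_mul, Real.cos_pi]
    linarith
  · refine ⟨0, fun x y hxy => ?_⟩
    have := sign_pre hV hk hne (z := (x, y)) hxy h0
    have := (mul_pos_iff_of_pos_right h).1 this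
    simp only [Int.cast_zero, zero_mul, Real.cos_zero]
    linarith

/-- a record of the width -/
theorem record (h : Pr f g) (hm : 0 < m) (hpos : ∀ x, 0 < x → x ≤ m → g x < f x) :
    ∃ ρ, 0 < ρ ∧ 2 * ρ < m ∧ f ρ - g ρ < f (ρ + (f ρ - g ρ)) - g (ρ + (f ρ - g ρ)) := by
  have hf := lip_cont h.hf
  have hg := lip_cont h.hg
  obtain ⟨z, hz, hmin⟩ := (isCompact_Icc (a := m / 8) (b := m / 4)).exists_isMinOn
    ⟨m / 8, le_rfl, by linarith⟩ (f := fun x => f x - g x) (by fun_prop)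
  have hz0 := hpos z (by linarith [hz.1]) (by linarith [hz.2])
  obtain ⟨η, η0, η1, η2⟩ : ∃ η > 0, η ≤ m / 8 ∧ η < f z - g z :=
    ⟨min (m / 8) ((f z - g z) / 2), lt_min (by linarith) (by linarith), min_le_left _ _,
      (min_le_right _ _).trans_lt (by linarith)⟩
  have hS : IsCompact (Icc 0 (m / 4) ∩ {x | f x - g x ≤ η}) :=
    isCompact_Icc.inter_right (isClosed_le (by fun_prop) continuous_const)
  have e1 := lip1 h.hf η0.le
  have e2 := lip1 h.hg η0.le
  rw [h.f0] at e1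
  rw [h.g0] at e2
  have hη : η ∈ Icc 0 (m / 4) ∩ {x | f x - g x ≤ η} :=
    ⟨⟨η0.le, by linarith⟩, show f η - g η ≤ η by linarith [e1.2, e2.1]⟩
  obtain ⟨ρ, hρ, hmax⟩ := hS.exists_isGreatest ⟨η, hη⟩
  have hρη : η ≤ ρ := hmax hη
  have hρ1 : ρ < m / 8 := by
    by_contra hcon
    push Not at hcon
    have h1 : f z - g z ≤ f ρ - g ρ := hmin (a := ρ) ⟨hcon, hρ.1.2⟩
    have h2 : f ρ - g ρ ≤ η := hρ.2
    linarith
  have hG := hpos ρ (by linarith) (by linarith)
  have h2 : f ρ - g ρ ≤ η := hρ.2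
  refine ⟨ρ, by linarith, by linarith, ?_⟩
  by_contra hcon
  push Not at hcon
  have : ρ + (f ρ - g ρ) ≤ ρ := hmax ⟨⟨by linarith, by linarith⟩,
    show f (ρ + (f ρ - g ρ)) - g (ρ + (f ρ - g ρ)) ≤ η by linarith⟩
  linarith

theorem OnC.neg' {x y y' : ℝ} (h : OnC f g x y) (hy : y' = -y) :
    OnC (fun x => -g x) (fun x => -f x) x y' := by
  refine ⟨h.1, ?_⟩
  rcases h.2 with h | h
  · right
    simp only
    rw [hy, h]
  · left
    simp only
    rw [hy, h]

theorem Thin.neg' {x y y' : ℝ} (h : Thin (fun x => -g x) (fun x => -f x) m x y) (hy : y' = -y) :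
    Thin f g m x y' := by
  obtain ⟨h1, h2, h3, h4⟩ := h
  simp only at h3 h4
  exact ⟨h1, h2, by linarith, by linarith⟩

theorem Tp.start (P : Tp f g m) {x ρ : ℝ} (hxρ : x < ρ) (h0 : 0 < ρ) (hm : 2 * ρ < m)
    (hd : 2 * (ρ - x) < f ρ - g ρ) :
    Thin f g m (ρ + (f ρ - f x)) (f ρ - (ρ - x)) ∧ Thin f g m (x + (f ρ - f x)) (f x - (ρ - x)) := by
  have e1 := lip1 P.pr.hf h0.le
  have e2 := lip1 P.pr.hg h0.le
  rw [P.pr.f0] at e1
  rw [P.pr.g0] at e2
  have e3 := lip1 P.pr.hf hxρ.le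
  have e4 := lip1 P.pr.hg hxρ.le
  have e5 : |f ρ - f x| ≤ 1 / 5 * (ρ - x) := abs_le.2 ⟨by linarith [e3.2], e3.1⟩
  have k1 := P.pr.hf (ρ + (f ρ - f x)) ρ
  have k2 := P.pr.hg (ρ + (f ρ - f x)) ρ
  have k3 := P.pr.hf (x + (f ρ - f x)) x
  have k4 := P.pr.hg (x + (f ρ - f x)) x
  rw [show ρ + (f ρ - f x) - ρ = f ρ - f x by ring, abs_le] at k1 k2
  rw [show x + (f ρ - f x) - x = f ρ - f x by ring, abs_le] at k3 k4
  rw [abs_le] at e5
  have e6 : |f ρ - f x| ≤ 1 / 5 * (ρ - x) := abs_le.2 e5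
  refine ⟨⟨by linarith, by linarith, by linarith, by linarith⟩,
    ⟨by linarith [e1.2, e2.1], by linarith, by linarith [e3.1, e4.2], by linarith⟩⟩

theorem DD_pt (hw : w ≠ 0) (x y : ℝ) : DD c x y = pt c w s
    ((zt c w s x).re + ((zt c w s x).im - (zt c w s y).im))
    ((zt c w s x).im - ((zt c w s x).re - (zt c w s y).re)) := by
  rw [DD_eq]
  have h1 := pt_zt (c := c) (s := s) hw x
  have h2 := pt_zt (c := c) (s := s) hw y
  rw [← h1, ← h2]
  unfold pt
  obtain ⟨X, hX⟩ : ∃ X, X = zt c w s x := ⟨_, rfl⟩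
  obtain ⟨Y, hY⟩ : ∃ Y, Y = zt c w s y := ⟨_, rfl⟩
  rw [← hX, ← hY]
  field_simp
  push_cast
  ring_nf
  rw [I_sq]
  ring

theorem CC_pt (hw : w ≠ 0) (x y : ℝ) : CC c x y = pt c w s
    ((zt c w s y).re + ((zt c w s x).im - (zt c w s y).im))
    ((zt c w s y).im - ((zt c w s x).re - (zt c w s y).re)) := by
  rw [CC_eq]
  have h1 := pt_zt (c := c) (s := s) hw x
  have h2 := pt_zt (c := c) (s := s) hw y
  rw [← h1, ← h2]
  unfold pt
  obtain ⟨X, hX⟩ : ∃ X, X = zt c w s x := ⟨_, rfl⟩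
  obtain ⟨Y, hY⟩ : ∃ Y, Y = zt c w s y := ⟨_, rfl⟩
  rw [← hX, ← hY]
  field_simp
  push_cast
  ring_nf
  rw [I_sq]
  ring

end Pool.Agent.Q155.Cusp
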