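import Mathlib
import Pool.Agent.Q155.Cusp.Core

/-!
The charge does not change across a thin tip.
-/

set_option autoImplicit false
open Complex Set Topology Metric

namespace Pool.Agent.Q155.Cusp

open Pool.Agent.H763R2 Pool.Agent.H763R2.An Pool.Agent.W675.Peg Pool.Agent.TH569.Peg
open Pool.Agent.H763R2.Dm (NoSq)
open Pool.Agent.Y535.PEG

variable {c : ℝ → ℂ} {w : ℂ} {s r m : ℝ} {f g : ℝ → ℝ} {θ : ℝ → ℝ → ℝ} {k : ℤ}

theorem ang_cs (A : Ang c (mgc c) θ k) (n : ℤ) {x y : ℝ} (h1 : x < y) (h2 : y < x + 1) :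
    ((0 < Real.cos (n * Real.pi) * mgc c (DD c x y)) → 0 < Real.cos (θ x y - n * Real.pi)) ∧
    ((0 < Real.cos (n * Real.pi) * mgc c (CC c x y)) → 0 < Real.sin (θ x y - n * Real.pi)) ∧
    (Real.cos (θ x y - n * Real.pi) = 0 → mgc c (DD c x y) = 0) ∧
    (Real.sin (θ x y - n * Real.pi) = 0 → mgc c (CC c x y) = 0) := by
  obtain ⟨R, hR, e1, e2⟩ := A.ex x y h1 h2
  rw [e1, e2, Real.cos_sub_int_mul_pi, Real.sin_sub_int_mul_pi, Real.cos_int_mul_pi]
  have hz : ((-1 : ℝ) ^ n) ≠ 0 := zpow_ne_zero _ (by norm_num)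
  refine ⟨fun h => ?_, fun h => ?_, fun h => ?_, fun h => ?_⟩
  · rw [show (-1 : ℝ) ^ n * (R * Real.cos (θ x y)) = R * ((-1 : ℝ) ^ n * Real.cos (θ x y)) by
      ring] at h
    exact (mul_pos_iff_of_pos_left hR).1 h
  · rw [show (-1 : ℝ) ^ n * (R * Real.sin (θ x y)) = R * ((-1 : ℝ) ^ n * Real.sin (θ x y)) by
      ring] at h
    exact (mul_pos_iff_of_pos_left hR).1 h
  · rw [(mul_eq_zero.1 h).resolve_left hz, mul_zero]
  · rw [(mul_eq_zero.1 h).resolve_left hz, mul_zero]

/-- the numbers of half turns on the two sides of a thin tip agree when the incoming branch is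
above -/
theorem core (L : Loop c) (nosq : NoSq (range c)) (A : Ang c (mgc c) θ k)
    (T : TD c w s r m f g)
    (loc : ∀ x y, |x| ≤ 2 * m → |y| ≤ 2 * m → pt c w s x y ∈ range c → OnC f g x y)
    (hpos : ∀ x, 0 < x → x ≤ m → g x < f x) :
    ∃ a b, s - r < a ∧ a < s ∧ s < b ∧ b < s + r ∧
      ∀ la lb, KL θ a la → KL θ b lb → la = lb := by
  have P := T.tp L nosq hpos
  have P' := P.neg
  obtain ⟨n, hn⟩ := T.sgn L loc hpos
  obtain ⟨ρ, ρ0, ρm, hG⟩ := record T.pr T.m0 hpos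
  obtain ⟨a, a1, a2, a3⟩ := T.par_inc L ρ0.le (by linarith)
  obtain ⟨b, b1, b2, b3⟩ := T.par_out L ρ0.le (by linarith)
  have has : a < s := by
    rcases lt_or_eq_of_le a2 with h | h
    · exact h
    · exfalso
      rw [h, zt_self] at a3
      simp only [zero_re] at a3
      exact absurd a3 ρ0.ne
  have hsb : s < b := by
    rcases lt_or_eq_of_le b1 with h | h
    · exact h
    · exfalso
      rw [← h, zt_self] at b3
      simp only [zero_re] at b3
      exact absurd b3 ρ0.ne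
  have hra : s - r < a := by
    rcases lt_or_eq_of_le a1 with h | h
    · exact h
    · exfalso
      have := T.m1
      rw [h, a3] at this
      linarith
  have hrb : b < s + r := by
    rcases lt_or_eq_of_le b2 with h | h
    · exact h
    · exfalso
      have := T.m2
      rw [← h, b3] at this
      linarith
  have r1 := T.r1
  have hfa := T.inc a a1 a2
  have hgb := T.out b b1 b2
  rw [a3] at hfa
  rw [b3] at hgb
  have hGρ := hpos ρ ρ0 (by linarith)
  have lf := lip1 T.pr.hf ρ0.le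
  have lg := lip1 T.pr.hg ρ0.le
  rw [T.pr.f0] at lf
  rw [T.pr.g0] at lg
  have hzero : ∀ z, mgc c z = 0 → z ∈ range c := fun z hz => ((mgc_sg L).zero L).1 hz
  -- the branches
  have brf : ∀ v, a ≤ v → v ≤ s → 0 ≤ (zt c w s v).re ∧ (zt c w s v).re ≤ ρ ∧
      (a < v → (zt c w s v).re < ρ) ∧ (v < s → 0 < (zt c w s v).re) ∧
      (zt c w s v).im = f (zt c w s v).re := by
    intro v h1 h2
    refine ⟨T.inc_re (by linarith) h2, ?_, fun h => ?_, fun h => ?_,
      (T.inc v (by linarith) h2).symm⟩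
    · rcases lt_or_eq_of_le h1 with h | h
      · have := T.dec a v a1 h h2
        rw [a3] at this
        exact this.le
      · rw [← h, a3]
    · have := T.dec a v a1 h h2
      rwa [a3] at this
    · have := T.dec v s (by linarith) h le_rfl
      rwa [zt_self] at this
  have brg : ∀ v, s ≤ v → v ≤ b → 0 ≤ (zt c w s v).re ∧ (zt c w s v).re ≤ ρ ∧
      (v < b → (zt c w s v).re < ρ) ∧ (s < v → 0 < (zt c w s v).re) ∧
      (zt c w s v).im = g (zt c w s v).re := by
    intro v h1 h2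
    refine ⟨T.out_re h1 (by linarith), ?_, fun h => ?_, fun h => ?_,
      (T.out v h1 (by linarith)).symm⟩
    · rcases lt_or_eq_of_le h2 with h | h
      · have := T.asc v b h1 h b2
        rw [b3] at this
        exact this.le
      · rw [h, b3]
    · have := T.asc v b h1 h b2
      rwa [b3] at this
    · have := T.asc s v le_rfl h (by linarith)
      rwa [zt_self] at this
  -- first stage
  have S1 : ∀ v ∈ Ioc a b, Real.sin (θ a v - n * Real.pi) = 0 →
      0 < Real.cos (θ a v - n * Real.pi) := by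
    intro v hv h0
    obtain ⟨q1, q2, q3, q4⟩ := ang_cs A n (x := a) (y := v) hv.1 (by linarith [hv.2])
    apply q1
    have hC := hzero _ (q4 h0)
    rw [CC_pt T.w0 (s := s), a3, ← hfa] at hC
    rw [DD_pt T.w0 (s := s), a3, ← hfa]
    apply hn
    rcases le_total v s with hvs | hvs
    · obtain ⟨x0, x1, x2, x3, x4⟩ := brf v hv.1.le hvs
      rw [x4] at hC ⊢
      obtain ⟨x, hx⟩ : ∃ x, x = (zt c w s v).re := ⟨_, rfl⟩
      rw [← hx] at hC x0 x1 x2 x3 ⊢
      have lx := lip1 T.pr.hf x0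
      rw [T.pr.f0] at lx
      have hO := loc _ _ (abs_le.2 ⟨by linarith, by linarith⟩)
        (abs_le.2 ⟨by linarith, by linarith⟩) hC
      exact P.claimA x0 (x2 hv.1) (by linarith) hO
    · rcases eq_or_lt_of_le hvs with h | h
      · obtain ⟨x0, x1, x2, x3, x4⟩ := brf v hv.1.le h.symm.le
        rw [x4] at hC ⊢
        obtain ⟨x, hx⟩ : ∃ x, x = (zt c w s v).re := ⟨_, rfl⟩
        rw [← hx] at hC x0 x1 x2 x3 ⊢
        have lx := lip1 T.pr.hf x0
        rw [T.pr.f0] at lx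
        have hO := loc _ _ (abs_le.2 ⟨by linarith, by linarith⟩)
          (abs_le.2 ⟨by linarith, by linarith⟩) hC
        exact P.claimA x0 (x2 hv.1) (by linarith) hO
      · obtain ⟨x0, x1, x2, x3, x4⟩ := brg v hvs hv.2
        rw [x4] at hC ⊢
        obtain ⟨x, hx⟩ : ∃ x, x = (zt c w s v).re := ⟨_, rfl⟩
        rw [← hx] at hC x0 x1 x2 x3 ⊢
        have lx := lip1 T.pr.hg x0
        rw [T.pr.g0] at lx
        have hO := loc _ _ (abs_le.2 ⟨by linarith, by linarith⟩)
          (abs_le.2 ⟨by linarith, by linarith⟩) hC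
        exact P.claimB (x3 h) x1 (by linarith) hO
  -- second stage
  have S2 : ∀ u ∈ Ico a b, Real.cos (θ u b - n * Real.pi) = 0 →
      0 < Real.sin (θ u b - n * Real.pi) := by
    intro u hu h0
    obtain ⟨q1, q2, q3, q4⟩ := ang_cs A n (x := u) (y := b) hu.2 (by linarith [hu.1])
    apply q2
    have hC := hzero _ (q3 h0)
    rw [DD_pt T.w0 (s := s), b3, ← hgb] at hC
    rw [CC_pt T.w0 (s := s), b3, ← hgb]
    apply hn
    have aux : ∀ x, 0 ≤ x → x ≤ ρ → x < ρ →
        pt c w s (x + (g x - g ρ)) (g x - (x - ρ)) ∈ range c →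
        Thin f g m (ρ + (g x - g ρ)) (g ρ - (x - ρ)) := by
      intro x x0 x1 x2 hC
      have lx := lip1 T.pr.hg x0
      rw [T.pr.g0] at lx
      have hO := loc _ _ (abs_le.2 ⟨by linarith, by linarith⟩)
        (abs_le.2 ⟨by linarith, by linarith⟩) hC
      have := P'.claimA x0 x2 (by linarith)
      rw [show (-g ρ - -g x : ℝ) = g x - g ρ by ring] at this
      exact (this (hO.neg' (by ring))).neg' (by ring)
    rcases le_total s u with hus | hus
    · obtain ⟨x0, x1, x2, x3, x4⟩ := brg u hus hu.2.le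
      rw [x4] at hC ⊢
      exact aux _ x0 x1 (x2 hu.2) hC
    · rcases eq_or_lt_of_le hus with h | h
      · obtain ⟨x0, x1, x2, x3, x4⟩ := brg u h.symm.le hu.2.le
        rw [x4] at hC ⊢
        exact aux _ x0 x1 (x2 hu.2) hC
      · obtain ⟨x0, x1, x2, x3, x4⟩ := brf u hu.1 hus
        rw [x4] at hC ⊢
        obtain ⟨x, hx⟩ : ∃ x, x = (zt c w s u).re := ⟨_, rfl⟩
        rw [← hx] at hC x0 x1 x2 x3 ⊢
        have lx := lip1 T.pr.hf x0
        rw [T.pr.f0] at lx
        have hO := loc _ _ (abs_le.2 ⟨by linarith, by linarith⟩)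
          (abs_le.2 ⟨by linarith, by linarith⟩) hC
        have := P'.claimB (x3 h) x1 (by linarith)
        rw [show (-g ρ - -f x : ℝ) = f x - g ρ by ring] at this
        exact (this (hO.neg' (by ring))).neg' (by ring)
  -- the middle
  have S3 : 0 < Real.cos (θ a b - n * Real.pi) ∨ 0 < Real.sin (θ a b - n * Real.pi) := by
    obtain ⟨q1, q2, q3, q4⟩ := ang_cs A n (x := a) (y := b) (by linarith) (by linarith)
    rcases P.claimM ρ0 (by linarith) hG with h | h
    · left
      apply q1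
      rw [DD_pt T.w0 (s := s), a3, ← hfa, b3, ← hgb, sub_self, sub_zero]
      exact hn _ _ h
    · right
      apply q2
      rw [CC_pt T.w0 (s := s), a3, ← hfa, b3, ← hgb, sub_self, sub_zero]
      exact hn _ _ h
  refine ⟨a, b, hra, has, hsb, hrb, fun la lb hla hlb => ?_⟩
  obtain ⟨ρ1, hρ1, K1⟩ := hla
  obtain ⟨ρ2, hρ2, K2⟩ := hlb
  have hcre : Continuous fun t => (zt c w s t).re := continuous_re.comp (zt_cont L)
  -- the start
  obtain ⟨v0, v1, v2, v3, v4⟩ : ∃ v0, a < v0 ∧ v0 < s ∧ |v0 - a| < ρ1 ∧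
      ρ - (f ρ - g ρ) / 2 < (zt c w s v0).re := by
    have h1 : ∀ᶠ t in 𝓝 a, ρ - (f ρ - g ρ) / 2 < (zt c w s t).re :=
      hcre.continuousAt.eventually (lt_mem_nhds (show _ < (zt c w s a).re by rw [a3]; linarith))
    have h2 : ∀ᶠ t in 𝓝 a, |t - a| < ρ1 := by
      filter_upwards [Metric.ball_mem_nhds a hρ1] with t ht
      exact ht
    have h3 : ∀ᶠ t in 𝓝 a, t < s := gt_mem_nhds has
    have h4 := ((h1.and (h2.and h3)).filter_mono (nhdsWithin_le_nhds (s := Ioi a))).and
      self_mem_nhdsWithin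
    obtain ⟨t, ⟨t1, t2, t3⟩, t4⟩ := h4.exists
    exact ⟨t, t4, t3, t2, t1⟩
  obtain ⟨u0, u1, u2, u3, u4⟩ : ∃ u0, u0 < b ∧ s < u0 ∧ |u0 - b| < ρ2 ∧
      ρ - (f ρ - g ρ) / 2 < (zt c w s u0).re := by
    have h1 : ∀ᶠ t in 𝓝 b, ρ - (f ρ - g ρ) / 2 < (zt c w s t).re :=
      hcre.continuousAt.eventually (lt_mem_nhds (show _ < (zt c w s b).re by rw [b3]; linarith))
    have h2 : ∀ᶠ t in 𝓝 b, |t - b| < ρ2 := by
      filter_upwards [Metric.ball_mem_nhds b hρ2] with t ht
      exact ht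
    have h3 : ∀ᶠ t in 𝓝 b, s < t := lt_mem_nhds hsb
    have h4 := ((h1.and (h2.and h3)).filter_mono (nhdsWithin_le_nhds (s := Iio b))).and
      self_mem_nhdsWithin
    obtain ⟨t, ⟨t1, t2, t3⟩, t4⟩ := h4.exists
    exact ⟨t, t4, t3, t2, t1⟩
  have V : 0 < Real.cos (θ a v0 - n * Real.pi) ∧ 0 < Real.sin (θ a v0 - n * Real.pi) := by
    obtain ⟨q1, q2, -, -⟩ := ang_cs A n (x := a) (y := v0) v1 (by linarith)
    obtain ⟨x0, x1, x2, x3, x4⟩ := brf v0 v1.le v2.le
    obtain ⟨t1, t2⟩ := P.start (x2 v1) ρ0 (by linarith) (by linarith)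
    constructor
    · apply q1
      rw [DD_pt T.w0 (s := s), a3, ← hfa, x4]
      exact hn _ _ t1
    · apply q2
      rw [CC_pt T.w0 (s := s), a3, ← hfa, x4]
      exact hn _ _ t2
  have U : 0 < Real.cos (θ u0 b - n * Real.pi) ∧ 0 < Real.sin (θ u0 b - n * Real.pi) := by
    obtain ⟨q1, q2, -, -⟩ := ang_cs A n (x := u0) (y := b) u1 (by linarith)
    obtain ⟨x0, x1, x2, x3, x4⟩ := brg u0 u2.le u1.le
    obtain ⟨t1, t2⟩ := P'.start (x2 u1) ρ0 (by linarith) (by linarith)
    rw [show -g ρ - -g (zt c w s u0).re = g (zt c w s u0).re - g ρ by ring] at t1 t2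
    constructor
    · apply q1
      rw [DD_pt T.w0 (s := s), b3, ← hgb, x4]
      exact hn _ _ (t2.neg' (by ring))
    · apply q2
      rw [CC_pt T.w0 (s := s), b3, ← hgb, x4]
      exact hn _ _ (t1.neg' (by ring))
  have key := two_stage (a := a) (b := b) (by linarith) (k1 := fun v => θ a v - n * Real.pi)
    (k2 := fun u => θ u b - n * Real.pi) ?_ ?_ rfl S1 S2 S3 ⟨v1, by linarith⟩
    ⟨by linarith, u1⟩ V.1 V.2 U.1 U.2
  · have e1 : (θ a v0 - n * Real.pi) / Real.pi = θ a v0 / Real.pi - n := by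
      have := Real.pi_ne_zero
      field_simp
    have e2 : (θ u0 b - n * Real.pi) / Real.pi = θ u0 b / Real.pi - n := by
      have := Real.pi_ne_zero
      field_simp
    rw [e1, e2, Int.floor_sub_intCast, Int.floor_sub_intCast,
      K1 a v0 (by simpa using hρ1) v3 v1, K2 u0 b u3 (by simpa using hρ2) u1] at key
    linarith
  · refine ContinuousOn.sub ?_ continuousOn_const
    refine A.cont.comp (f := fun v : ℝ => ((a, v) : ℝ × ℝ)) (by fun_prop) ?_
    intro v hv
    exact ⟨hv.1, by simp only; linarith [hv.2]⟩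
  · refine ContinuousOn.sub ?_ continuousOn_const
    refine A.cont.comp (f := fun u : ℝ => ((u, b) : ℝ × ℝ)) (by fun_prop) ?_
    intro v hv
    exact ⟨hv.2, by simp only; linarith [hv.1]⟩

end Pool.Agent.Q155.Cusp
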