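import Mathlib
import Pool.Agent.Q155.Cusp.Core2

/-!
Charges of arcs which are locally monotone except at thin tips.
-/

set_option autoImplicit false
open Complex Set Topology Metric

namespace Pool.Agent.Q155.Cusp

open Pool.Agent.H763R2 Pool.Agent.H763R2.An Pool.Agent.W675.Peg Pool.Agent.TH569.Peg
open Pool.Agent.H763R2.Dm (NoSq)
open Pool.Agent.Y535.PEG

variable {c : ℝ → ℂ} {s : ℝ} {θ : ℝ → ℝ → ℝ} {k : ℤ}

theorem Tip.cone (h : Tip c s) : ∃ ρ > 0, ρ ≤ 1 / 4 ∧ ∀ t, |t - s| < ρ → t ≠ s → Cone c t := by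
  obtain ⟨ρ, hρ, w, h1, h2⟩ := h
  refine ⟨min ρ (1 / 4), lt_min hρ (by norm_num), min_le_right _ _, fun t ht hts => ?_⟩
  have ht' : |t - s| < ρ := ht.trans_le (min_le_left _ _)
  rw [abs_lt] at ht'
  rcases lt_or_gt_of_ne hts with h | h
  · refine ⟨min (s - t) (t - (s - ρ)), lt_min (by linarith) (by linarith), w,
      fun x y hx hy hxy => ?_⟩
    have hx1 := (abs_lt.1 (hx.trans_le (min_le_right _ _))).1
    have hy1 := (abs_lt.1 (hy.trans_le (min_le_left _ _))).2
    have := h1 x y (by linarith) hxy (by linarith)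
    have h0 := abs_nonneg (w * (c y - c x)).im
    linarith
  · refine ⟨min (t - s) (s + ρ - t), lt_min (by linarith) (by linarith), -w,
      fun x y hx hy hxy => ?_⟩
    have hx1 := (abs_lt.1 (hx.trans_le (min_le_left _ _))).1
    have hy1 := (abs_lt.1 (hy.trans_le (min_le_right _ _))).2
    have := h2 x y (by linarith) hxy (by linarith)
    have h0 := abs_nonneg (w * (c y - c x)).im
    rw [show -w * (c y - c x) = -(w * (c y - c x)) by ring, neg_im, neg_re, abs_neg]
    linarith

theorem range_rev (c : ℝ → ℂ) : range (fun t => c (-t)) = range c := by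
  ext z
  constructor
  · rintro ⟨t, rfl⟩
    exact ⟨-t, rfl⟩
  · rintro ⟨t, rfl⟩
    exact ⟨-t, by simp⟩

/-- the numbers of half turns on the two sides of a thin tip agree modulo four -/
theorem Tip.four (L : Loop c) (J : Inj c) (nosq : NoSq (range c)) (A : Ang c (mgc c) θ k)
    (h : Tip c s) {ε : ℝ} (hε : 0 < ε) : ∃ a b, s - ε < a ∧ a < s ∧ s < b ∧ b < s + ε ∧
      Cone c a ∧ Cone c b ∧ ∀ la lb, KL θ a la → KL θ b lb → ∃ j : ℤ, lb - la = 4 * j := by
  obtain ⟨ρ, hρ, hρ4, hcone⟩ := h.cone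
  obtain ⟨w, r, m, f, g, hr, T⟩ := h.data (lt_min hε hρ)
  have hr1 := hr.trans_le (min_le_left _ _)
  have hr2 := hr.trans_le (min_le_right _ _)
  obtain ⟨δ, hδ, hloc⟩ := T.onC L J
  obtain ⟨m', m0, mm, mδ⟩ : ∃ m' > 0, m' ≤ m ∧ 2 * m' < δ :=
    ⟨min m (δ / 3), lt_min T.m0 (by linarith), min_le_left _ _, by
      have := min_le_right m (δ / 3)
      linarith⟩
  have T' := T.shrink m0 mm
  have loc : ∀ x y, |x| ≤ 2 * m' → |y| ≤ 2 * m' → pt c w s x y ∈ range c → OnC f g x y :=
    fun x y hx hy hC => hloc x y (hx.trans_lt mδ) (hy.trans_lt mδ) hC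
  rcases T'.sign L J with hs | hs
  · obtain ⟨a, b, h1, h2, h3, h4, H⟩ := core L nosq A T' loc hs
    refine ⟨a, b, by linarith, h2, h3, by linarith,
      hcone a (abs_lt.2 ⟨by linarith, by linarith⟩) h2.ne,
      hcone b (abs_lt.2 ⟨by linarith, by linarith⟩) h3.ne', fun la lb hla hlb => ⟨0, ?_⟩⟩
    rw [H la lb hla hlb]
    ring
  · have loc' : ∀ x y, |x| ≤ 2 * m' → |y| ≤ 2 * m' →
        pt (fun t => c (-t)) w (-s) x y ∈ range (fun t => c (-t)) → OnC g f x y := by
      intro x y hx hy hC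
      rw [range_rev] at hC
      have e : pt (fun t => c (-t)) w (-s) x y = pt c w s x y := by
        unfold pt
        simp
      rw [e] at hC
      have := loc x y hx hy hC
      exact ⟨this.1, this.2.symm⟩
    obtain ⟨a, b, h1, h2, h3, h4, H⟩ := core L.rev (by rw [range_rev]; exact nosq) (Ang.rev L A)
      T'.rev loc' hs
    have C1 := hcone (-b) (abs_lt.2 ⟨by linarith, by linarith⟩) (by linarith)
    have C2 := hcone (-a) (abs_lt.2 ⟨by linarith, by linarith⟩) (by linarith)
    refine ⟨-b, -a, by linarith, by linarith, by linarith, by linarith, C1, C2,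
      fun la lb hla hlb => ?_⟩
    obtain ⟨ra, hra⟩ := exKR L J A C1
    obtain ⟨rb, hrb⟩ := exKR L J A C2
    have e1 := hra.rev
    have e2 := hrb.rev
    rw [neg_neg] at e1 e2
    have e3 := H _ _ e2 e1
    obtain ⟨j, hj⟩ := parity L J nosq A (by linarith) (by linarith) C1 C2 hla hlb hra hrb
    exact ⟨-j, by linarith⟩

theorem Mon.loc (h : Mon c s) : ∃ ρ > 0, ∀ s', |s' - s| < ρ → Mon c s' := by
  obtain ⟨ρ, hρ, w, H⟩ := h
  refine ⟨ρ / 2, by positivity, fun s' hs' => ⟨ρ / 2, by positivity, w, fun x y hx hy => ?_⟩⟩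
  exact H x y (near_tr (by linarith) hx) (near_tr (by linarith) hy)

theorem cone_mon (h : Cone c s) : Mon c s := by
  obtain ⟨ρ, hρ, w, H⟩ := h
  refine ⟨ρ, hρ, w, fun x y hx hy hxy => ?_⟩
  have := H x y hx hy hxy
  have h0 := abs_nonneg (w * (c y - c x)).im
  linarith

/-- the charge of an arc which is locally monotone except at thin tips is even -/
theorem arc_even {x : ℝ → ℤ} {l0 : ℤ} (L : Loop c) (J : Inj c) (nosq : NoSq (range c))
    (A : Ang c (mgc c) θ k) (hx : ∀ s, Cone c s → KL θ s (l0 + 2 * x s))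
    (hmon : ∀ s t, AR c s t → (∀ r ∈ Icc s t, Mon c r) → x t = x s) {a b : ℝ} (hab : AR c a b)
    (H : ∀ s ∈ Icc a b, Mon c s ∨ Tip c s) : Even (x b - x a) := by
  by_contra hodd
  obtain ⟨B, hB⟩ : ∃ B : Set ℝ, B = {t | a ≤ t ∧ t ≤ b ∧ Cone c t ∧ ¬ Even (x t - x a)} :=
    ⟨_, rfl⟩
  have hbB : b ∈ B := by rw [hB]; exact ⟨hab.ab.le, le_rfl, hab.hb, hodd⟩
  have hbd : BddBelow B := ⟨a, fun t ht => by rw [hB] at ht; exact ht.1⟩
  obtain ⟨T, hT⟩ : ∃ T, T = sInf B := ⟨_, rfl⟩
  have haT : a ≤ T := by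
    rw [hT]
    exact le_csInf ⟨b, hbB⟩ fun t ht => by rw [hB] at ht; exact ht.1
  have hTb : T ≤ b := by rw [hT]; exact csInf_le hbd hbB
  have lt : ∀ t, a ≤ t → t < T → Cone c t → Even (x t - x a) := by
    intro t h1 h2 h3
    by_contra hcon
    have : t ∈ B := by rw [hB]; exact ⟨h1, by linarith, h3, hcon⟩
    have := csInf_le hbd this
    rw [← hT] at this
    linarith
  have near : ∀ η > 0, ∃ t, t ∈ B ∧ T ≤ t ∧ t < T + η := by
    intro η hη
    obtain ⟨t, ht, ht2⟩ := exists_lt_of_csInf_lt ⟨b, hbB⟩ (show sInf B < T + η by rw [← hT]; linarith)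
    exact ⟨t, ht, by rw [hT]; exact csInf_le hbd ht, ht2⟩
  have hmon' : ∀ p t, p < t → t < p + 1 → Cone c p → Cone c t → (∀ r ∈ Icc p t, Mon c r) →
      x t = x p := fun p t h1 h2 h3 h4 h5 => hmon p t ⟨h1, h2, h3, h4⟩ h5
  have hba := hab.ba
  -- the exceptional points
  have hEc : IsCompact {t | t ∈ Icc a T ∧ ¬ Mon c t} := by
    have hopen : IsOpen {t | Mon c t} := by
      rw [Metric.isOpen_iff]
      intro t ht
      obtain ⟨ρ, hρ, h⟩ := Mon.loc ht
      exact ⟨ρ, hρ, fun t' ht' => h t' ht'⟩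
    exact isCompact_Icc.inter_right hopen.isClosed_compl
  rcases Set.eq_empty_or_nonempty {t | t ∈ Icc a T ∧ ¬ Mon c t} with hE | hE
  · have hall : ∀ t ∈ Icc a T, Mon c t := by
      intro t ht
      by_contra hcon
      have : t ∈ {t | t ∈ Icc a T ∧ ¬ Mon c t} := ⟨ht, hcon⟩
      rw [hE] at this
      exact this
    obtain ⟨η, hη, hl⟩ := Mon.loc (hall T ⟨haT, le_rfl⟩)
    obtain ⟨t, ht, t1, t2⟩ := near η hη
    rw [hB] at ht
    obtain ⟨u1, u2, u3, u4⟩ := ht
    apply u4
    rcases eq_or_lt_of_le u1 with h | h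
    · rw [← h, sub_self]
      exact Even.zero
    · rw [hmon' a t h (by linarith) hab.ha u3 fun r hr => ?_, sub_self]
      · exact Even.zero
      · rcases le_total r T with h' | h'
        · exact hall r ⟨hr.1, h'⟩
        · exact hl r (abs_lt.2 ⟨by linarith, by linarith [hr.2]⟩)
  · obtain ⟨e, he, hmax⟩ := hEc.exists_isGreatest hE
    obtain ⟨⟨he1, he2⟩, he3⟩ := he
    have hae : a < e := by
      rcases eq_or_lt_of_le he1 with h | h
      · exact absurd (cone_mon (by rw [← h]; exact hab.ha)) he3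
      · exact h
    have hTip : Tip c e := (H e ⟨he1, by linarith⟩).resolve_left he3
    obtain ⟨ρ, hρ, hρ4, hcone⟩ := hTip.cone
    rcases eq_or_lt_of_le he2 with h | h
    · -- the tip is the infimum
      subst h
      obtain ⟨a', b', p1, p2, p3, p4, C1, C2, H4⟩ := hTip.four L J nosq A
        (lt_min (sub_pos.2 hae) hρ)
      have q1 := min_le_left (e - a) ρ
      have q2 := min_le_right (e - a) ρ
      obtain ⟨j, hj⟩ := H4 _ _ (hx a' C1) (hx b' C2)
      have E1 := lt a' (by linarith) p2 C1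
      obtain ⟨t, ht, t1, t2⟩ := near ρ hρ
      rw [hB] at ht
      obtain ⟨u1, u2, u3, u4⟩ := ht
      have hte : e < t := by
        rcases eq_or_lt_of_le t1 with h | h
        · exact absurd (cone_mon (by rw [h]; exact u3)) he3
        · exact h
      have hc' : ∀ r, e < r → r < e + ρ → Mon c r := fun r r1 r2 =>
        cone_mon (hcone r (abs_lt.2 ⟨by linarith, by linarith⟩) r1.ne')
      have E2 : x t = x b' := by
        rcases lt_trichotomy t b' with h | h | h
        · exact (hmon' t b' h (by linarith) u3 C2 fun r hr =>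
            hc' r (by linarith [hr.1]) (by linarith [hr.2])).symm
        · rw [h]
        · exact hmon' b' t h (by linarith) C2 u3 fun r hr =>
            hc' r (by linarith [hr.1]) (by linarith [hr.2])
      apply u4
      rw [E2, show x b' - x a = (x a' - x a) + 2 * j by linarith]
      exact E1.add (even_two_mul j)
    · -- the tip is before the infimum
      obtain ⟨p, p1, p2, p3⟩ : ∃ p, e < p ∧ p < T ∧ p < e + ρ :=
        ⟨e + min (T - e) ρ / 2, by
          have := lt_min (sub_pos.2 h) hρ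
          linarith, by
          have := min_le_left (T - e) ρ
          linarith, by
          have := min_le_right (T - e) ρ
          linarith⟩
      have Cp : Cone c p := hcone p (abs_lt.2 ⟨by linarith, by linarith⟩) p1.ne'
      have E1 := lt p (by linarith) p2 Cp
      have hall : ∀ t, e < t → t ≤ T → Mon c t := by
        intro t h1 h2
        by_contra hcon
        have := hmax (show t ∈ {t | t ∈ Icc a T ∧ ¬ Mon c t} from ⟨⟨by linarith, h2⟩, hcon⟩)
        linarith
      obtain ⟨η, hη, hl⟩ := Mon.loc (hall T h le_rfl)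
      obtain ⟨t, ht, t1, t2⟩ := near η hη
      rw [hB] at ht
      obtain ⟨u1, u2, u3, u4⟩ := ht
      apply u4
      rw [hmon' p t (by linarith) (by linarith) Cp u3 fun r hr => ?_]
      · exact E1
      · rcases le_total r T with h' | h'
        · exact hall r (by linarith [hr.1]) h'
        · exact hl r (abs_lt.2 ⟨by linarith, by linarith [hr.2]⟩)

/-- a closed simple curve without inscribed squares has a point at which it is neither locally
monotone nor has a thin tip, provided it is not everywhere locally monotone -/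
theorem no_tips (L : Loop c) (J : Inj c) (nosq : NoSq (range c))
    (H : ∀ s, Mon c s ∨ Tip c s) (s : ℝ) : Mon c s := by
  by_contra hs
  have hTip := (H s).resolve_left hs
  obtain ⟨ρ, hρ, hρ4, hcone⟩ := hTip.cone
  obtain ⟨θ, g, x, l0, A, hodd, hx, hper, hmon, -⟩ := exF L J nosq
  have C1 : Cone c (s - ρ / 2) := hcone _ (abs_lt.2 ⟨by linarith, by linarith⟩) (by linarith)
  have C2 : Cone c (s + ρ / 2) := hcone _ (abs_lt.2 ⟨by linarith, by linarith⟩) (by linarith)
  have E1 := arc_even L J nosq A hx hmon (a := s - ρ / 2) (b := s + ρ / 2)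
    ⟨by linarith, by linarith, C1, C2⟩ fun t _ => H t
  have E2 := arc_even L J nosq A hx hmon (a := s + ρ / 2) (b := s - ρ / 2 + 1)
    ⟨by linarith, by linarith, C2, C1.per L⟩ fun t _ => H t
  have e := hper _ C1
  have E3 := E1.add E2
  rw [e, show x (s + ρ / 2) - x (s - ρ / 2) + (x (s - ρ / 2) + g - x (s + ρ / 2)) = g by ring] at E3
  exact (Int.not_even_iff_odd.2 hodd) E3

end Pool.Agent.Q155.Cusp
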