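import Mathlib
import Pool.Agent.Q155.Cusp.Tip4

/-!
Arcs without isosceles right triangles: the charge is even.
-/

set_option autoImplicit false
open Complex Set Topology Metric

namespace Pool.Agent.Q155.Cusp

open Pool.Agent.H763R2 Pool.Agent.H763R2.An Pool.Agent.W675.Peg Pool.Agent.TH569.Peg
open Pool.Agent.H763R2.Dm (NoSq)
open Pool.Agent.Y535.PEG

variable {c : ℝ → ℂ} {θ : ℝ → ℝ → ℝ} {k : ℤ} {a b : ℝ}

/-- the numbers of half turns at the ends of an arc shielded on the left agree -/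
theorem shield (L : Loop c) (J : Inj c) (nosq : NoSq (range c)) (A : Ang c (mgc c) θ k)
    (hab : AR c a b) (h1 : ∀ v, a < v → v ≤ b → CC c a v ∉ range c)
    (h2 : ∀ u, a ≤ u → u < b → DD c u b ∉ range c) {la lb : ℤ} (hla : KL θ a la)
    (hlb : KL θ b lb) : la = lb := by
  obtain ⟨z0, hz0⟩ := exists_pos L J nosq
  obtain ⟨σ, hσ, hside⟩ := cone_side L J hz0
  obtain ⟨n, hn⟩ : ∃ n : ℤ, Real.cos (n * Real.pi) = σ := by
    rcases hσ with h | h
    · exact ⟨0, by rw [h]; simp⟩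
    · exact ⟨1, by rw [h]; simp⟩
  have hzero : ∀ z, mgc c z = 0 → z ∈ range c := fun z hz => ((mgc_sg L).zero L).1 hz
  have hba := hab.ba
  have hlt := hab.ab
  obtain ⟨ρ1, hρ1, K1⟩ := hla
  obtain ⟨ρ2, hρ2, K2⟩ := hlb
  obtain ⟨r1, hr1, D1⟩ := hside a hab.ha
  obtain ⟨r2, hr2, D2⟩ := hside b hab.hb
  obtain ⟨v0, v1, v2, v3, v4⟩ : ∃ v0, a < v0 ∧ v0 ≤ b ∧ |v0 - a| < ρ1 ∧ |v0 - a| < r1 := by
    refine ⟨a + min (b - a) (min ρ1 r1) / 2, ?_, ?_, ?_, ?_⟩
    · have := lt_min (sub_pos.2 hlt) (lt_min hρ1 hr1)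
      linarith
    · have := min_le_left (b - a) (min ρ1 r1)
      have := lt_min (sub_pos.2 hlt) (lt_min hρ1 hr1)
      linarith
    · have h1 := (min_le_right (b - a) (min ρ1 r1)).trans (min_le_left _ _)
      have h2 := lt_min (sub_pos.2 hlt) (lt_min hρ1 hr1)
      rw [add_sub_cancel_left, abs_of_pos (by linarith)]
      linarith
    · have h1 := (min_le_right (b - a) (min ρ1 r1)).trans (min_le_right _ _)
      have h2 := lt_min (sub_pos.2 hlt) (lt_min hρ1 hr1)
      rw [add_sub_cancel_left, abs_of_pos (by linarith)]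
      linarith
  obtain ⟨u0, u1, u2, u3, u4⟩ : ∃ u0, u0 < b ∧ a ≤ u0 ∧ |u0 - b| < ρ2 ∧ |u0 - b| < r2 := by
    refine ⟨b - min (b - a) (min ρ2 r2) / 2, ?_, ?_, ?_, ?_⟩
    · have := lt_min (sub_pos.2 hlt) (lt_min hρ2 hr2)
      linarith
    · have := min_le_left (b - a) (min ρ2 r2)
      have := lt_min (sub_pos.2 hlt) (lt_min hρ2 hr2)
      linarith
    · have h1 := (min_le_right (b - a) (min ρ2 r2)).trans (min_le_left _ _)
      have h2 := lt_min (sub_pos.2 hlt) (lt_min hρ2 hr2)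
      rw [abs_sub_comm, sub_sub_cancel, abs_of_pos (by linarith)]
      linarith
    · have h1 := (min_le_right (b - a) (min ρ2 r2)).trans (min_le_right _ _)
      have h2 := lt_min (sub_pos.2 hlt) (lt_min hρ2 hr2)
      rw [abs_sub_comm, sub_sub_cancel, abs_of_pos (by linarith)]
      linarith
  have V : 0 < Real.cos (θ a v0 - n * Real.pi) ∧ 0 < Real.sin (θ a v0 - n * Real.pi) := by
    obtain ⟨q1, q2, -, -⟩ := ang_cs A n (x := a) (y := v0) v1 (by linarith)
    obtain ⟨e1, e2, -, -⟩ := D1 a v0 (by simpa using hr1) v4 v1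
    rw [hn] at q1 q2
    exact ⟨q1 e1, q2 e2⟩
  have U : 0 < Real.cos (θ u0 b - n * Real.pi) ∧ 0 < Real.sin (θ u0 b - n * Real.pi) := by
    obtain ⟨q1, q2, -, -⟩ := ang_cs A n (x := u0) (y := b) u1 (by linarith)
    obtain ⟨e1, e2, -, -⟩ := D2 u0 b u4 (by simpa using hr2) u1
    rw [hn] at q1 q2
    exact ⟨q1 e1, q2 e2⟩
  have c1 : ContinuousOn (fun v => θ a v - n * Real.pi) (Ioc a b) := by
    refine ContinuousOn.sub ?_ continuousOn_const
    refine A.cont.comp (f := fun v : ℝ => ((a, v) : ℝ × ℝ)) (by fun_prop) ?_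
    intro v hv
    exact ⟨hv.1, by simp only; linarith [hv.2]⟩
  have c2 : ContinuousOn (fun u => θ u b - n * Real.pi) (Ico a b) := by
    refine ContinuousOn.sub ?_ continuousOn_const
    refine A.cont.comp (f := fun u : ℝ => ((u, b) : ℝ × ℝ)) (by fun_prop) ?_
    intro v hv
    exact ⟨hv.2, by simp only; linarith [hv.1]⟩
  have N1 : ∀ v ∈ Ioc a b, Real.sin (θ a v - n * Real.pi) ≠ 0 := fun v hv h0 =>
    h1 v hv.1 hv.2 (hzero _ ((ang_cs A n (x := a) (y := v) hv.1 (by linarith [hv.2])).2.2.2 h0))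
  have N2 : ∀ u ∈ Ico a b, Real.cos (θ u b - n * Real.pi) ≠ 0 := fun u hu h0 =>
    h2 u hu.1 hu.2 (hzero _ ((ang_cs A n (x := u) (y := b) hu.2 (by linarith [hu.1])).2.2.1 h0))
  have S3 : 0 < Real.sin (θ a b - n * Real.pi) := by
    have h := sign_pre isPreconnected_Ioc (Real.continuous_sin.comp_continuousOn c1) N1
      (z := b) (w := v0) ⟨hlt, le_rfl⟩ ⟨v1, v2⟩
    exact (mul_pos_iff_of_pos_right V.2).1 h
  have key := two_stage hlt (k1 := fun v => θ a v - n * Real.pi)
    (k2 := fun u => θ u b - n * Real.pi) c1 c2 rfl (fun v hv h => absurd h (N1 v hv))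
    (fun u hu h => absurd h (N2 u hu)) (Or.inr S3) ⟨v1, v2⟩ ⟨u2, u1⟩ V.1 V.2 U.1 U.2
  have e1 : (θ a v0 - n * Real.pi) / Real.pi = θ a v0 / Real.pi - n := by
    have := Real.pi_ne_zero
    field_simp
  have e2 : (θ u0 b - n * Real.pi) / Real.pi = θ u0 b / Real.pi - n := by
    have := Real.pi_ne_zero
    field_simp
  rw [e1, e2, Int.floor_sub_intCast, Int.floor_sub_intCast,
    K1 a v0 (by simpa using hρ1) v3 v1, K2 u0 b u3 (by simpa using hρ2) u1] at key
  linarith

/-- no isosceles right triangles: right angle at a point of the arc, a leg to one of the ends of the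
arc, third vertex on the curve, on a fixed side -/
def Shielded (c : ℝ → ℂ) (a b : ℝ) (ε : ℂ) : Prop :=
  (∀ v, a < v → v ≤ b → c v + ε * (c v - c a) ∉ range c) ∧
    ∀ u, a ≤ u → u < b → c u + ε * (c b - c u) ∉ range c

theorem ar_rev (h : AR c a b) : AR (fun t => c (-t)) (-b) (-a) where
  ab := by linarith [h.ab]
  ba := by linarith [h.ba]
  ha := h.hb.rev
  hb := h.ha.rev

/-- the charge of a shielded arc is even -/
theorem shield_four (L : Loop c) (J : Inj c) (nosq : NoSq (range c)) (A : Ang c (mgc c) θ k)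
    (hab : AR c a b) {ε : ℂ} (hε : ε = I ∨ ε = -I) (h : Shielded c a b ε) {la lb : ℤ}
    (hla : KL θ a la) (hlb : KL θ b lb) : ∃ j : ℤ, lb - la = 4 * j := by
  rcases hε with rfl | rfl
  · refine ⟨0, ?_⟩
    rw [shield L J nosq A hab (fun v h1 h2 => ?_) (fun u h1 h2 => ?_) hla hlb]
    · ring
    · rw [CC_eq]
      exact h.1 v h1 h2
    · rw [DD_eq]
      exact h.2 u h1 h2
  · obtain ⟨ra, hra⟩ := exKR L J A hab.ha
    obtain ⟨rb, hrb⟩ := exKR L J A hab.hb
    have e := shield L.rev (J.rev L) (by rw [range_rev]; exact nosq) (Ang.rev L A) (ar_rev hab)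
      (fun v h1 h2 => ?_) (fun u h1 h2 => ?_) hrb.rev hra.rev
    · obtain ⟨j, hj⟩ := parity L J nosq A hab.ab hab.ba hab.ha hab.hb hla hlb hra hrb
      exact ⟨-j, by linarith⟩
    · rw [CC_eq, range_rev]
      have := h.2 (-v) (by linarith) (by linarith)
      simp only [neg_neg]
      convert this using 2
      ring
    · rw [DD_eq, range_rev]
      have := h.1 (-u) (by linarith) (by linarith)
      simp only [neg_neg]
      convert this using 2
      ring

end Pool.Agent.Q155.Cusp
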