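import Mathlib
import Pool.Agent.Q155.Cusp.Shield
import Pool.Agent.Y535.PEG.Mco

/-!
Jordan curves made of tame arcs and of wild arcs in thin rhombi.
-/

set_option autoImplicit false
open Complex Set Topology Metric

namespace Pool.Agent.Q155.Cusp

open Pool.Agent.H763R2 Pool.Agent.H763R2.An Pool.Agent.W675.Peg Pool.Agent.TH569.Peg
open Pool.Agent.H763R2.Dm (NoSq)
open Pool.Agent.Y535.PEG

variable {c : ℝ → ℂ} {θ : ℝ → ℝ → ℝ} {k : ℤ} {a b : ℝ}

/-- the charge of a shielded arc is even -/
theorem shield_even {x : ℝ → ℤ} {l0 : ℤ} (L : Loop c) (J : Inj c) (nosq : NoSq (range c))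
    (A : Ang c (mgc c) θ k) (hx : ∀ s, Cone c s → KL θ s (l0 + 2 * x s))
    (hab : AR c a b) {ε : ℂ} (hε : ε = I ∨ ε = -I) (h : Shielded c a b ε) :
    Even (x b - x a) := by
  obtain ⟨j, hj⟩ := shield_four L J nosq A hab hε h (hx a hab.ha) (hx b hab.hb)
  exact ⟨j, by linarith⟩

/-- the open rhombus with diagonal `P Q` and angles of 45 degrees at `P` and `Q` -/
def Rh (P Q : ℂ) : Set ℂ := {z | ∃ x y : ℝ, z = P + (x + y * I) * (Q - P) ∧
  |y| < (√2 - 1) * x ∧ |y| < (√2 - 1) * (1 - x)}

theorem kap : (√2 - 1) * (√2 - 1) = 1 - 2 * (√2 - 1) ∧ 0 < √2 - 1 ∧ √2 - 1 < 1 := by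
  have h2 : √2 * √2 = 2 := Real.mul_self_sqrt (by norm_num)
  have h0 : 0 ≤ √2 := Real.sqrt_nonneg _
  refine ⟨by nlinarith, by nlinarith, by nlinarith⟩

theorem rh_coord {P Q : ℂ} (h : P ≠ Q) {x y : ℝ}
    (hz : P + (x + y * I) * (Q - P) ∈ Rh P Q) : |y| < (√2 - 1) * x ∧ |y| < (√2 - 1) * (1 - x) := by
  obtain ⟨x', y', e, h1, h2⟩ := hz
  have h0 : Q - P ≠ 0 := sub_ne_zero.2 h.symm
  have e2 : (x + y * I : ℂ) = x' + y' * I := mul_right_cancel₀ h0 (add_left_cancel e)
  have e3 := congrArg Complex.re e2
  have e4 := congrArg Complex.im e2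
  simp at e3 e4
  rw [e3, e4]
  exact ⟨h1, h2⟩

theorem rot1 {x y : ℝ} (h : |y| < (√2 - 1) * x) : ¬ |x + y| ≤ (√2 - 1) * (x - y) := by
  obtain ⟨k1, k2, k3⟩ := kap
  rw [abs_lt] at h
  rw [abs_le]
  rintro ⟨-, h2⟩
  nlinarith

theorem rot2 {x y : ℝ} (h : |y| < (√2 - 1) * x) : ¬ |y - x| ≤ (√2 - 1) * (x + y) := by
  have := rot1 (x := x) (y := -y) (by rwa [abs_neg])
  rwa [show x + -y = -(y - x) by ring, abs_neg, sub_neg_eq_add] at this

/-- an arc in a rhombus whose complementary arc avoids two rhombi is shielded -/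
theorem shielded_of_rh (hne : c a ≠ c b) (hlt : a < b) (hba : b < a + 1)
    (L : Loop c) {ε : ℂ} (hε : ε = I ∨ ε = -I) (hin : ∀ t ∈ Ioo a b, c t ∈ Rh (c a) (c b))
    (hout : ∀ t ∈ Icc b (a + 1), c t ∉ Rh (c a) (c b + ε * (c b - c a)) ∧
      c t ∉ Rh (c a + ε * (c b - c a)) (c b) ∧ c t ≠ c a + ε * (c b - c a) ∧
      c t ≠ c b + ε * (c b - c a)) : Shielded c a b ε := by
  -- points of the curve
  have hpt : ∀ z ∈ range c, z ∈ Rh (c a) (c b) ∨ z = c a ∨ z = c b ∨
      ∃ t ∈ Icc b (a + 1), z = c t := by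
    rintro z ⟨t, rfl⟩
    obtain ⟨m, hm1, hm2⟩ : ∃ m : ℤ, a ≤ t + m ∧ t + m < a + 1 := by
      refine ⟨-⌊t - a⌋, ?_, ?_⟩
      · push_cast
        linarith [Int.floor_le (t - a)]
      · push_cast
        linarith [Int.lt_floor_add_one (t - a)]
    have e : c (t + m) = c t := L.per_int t m
    rw [← e]
    rcases eq_or_lt_of_le hm1 with h | h
    · right; left; rw [← h]
    · rcases lt_or_ge (t + m) b with h' | h'
      · left
        exact hin _ ⟨h, h'⟩
      · right; right; right
        exact ⟨t + m, ⟨h', hm2.le⟩, rfl⟩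
  obtain ⟨k1, k2, k3⟩ := kap
  have key : ∀ z : ℂ, (∃ x y : ℝ, z = c a + (x + y * I) * (c b - c a) ∧
      ¬ (|y| ≤ (√2 - 1) * x ∧ |y| ≤ (√2 - 1) * (1 - x))) →
      (z ∈ Rh (c a) (c b + ε * (c b - c a)) ∨ z ∈ Rh (c a + ε * (c b - c a)) (c b) ∨
        z = c a + ε * (c b - c a) ∨ z = c b + ε * (c b - c a)) → z ∉ range c := by
    rintro z ⟨x, y, hz, hxy⟩ hcase hzr
    rcases hpt z hzr with h | h | h | ⟨t, ht, h⟩
    · rw [hz] at h
      have := rh_coord hne h
      exact hxy ⟨this.1.le, this.2.le⟩
    · have e2 : (x + y * I : ℂ) = (0 : ℝ) + (0 : ℝ) * I := by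
        rw [hz] at h
        have h0 : c b - c a ≠ 0 := sub_ne_zero.2 hne.symm
        have : (x + y * I : ℂ) * (c b - c a) = 0 := by linear_combination h
        rcases mul_eq_zero.1 this with h | h
        · rw [h]; simp
        · exact absurd h h0
      have e3 := congrArg Complex.re e2
      have e4 := congrArg Complex.im e2
      simp at e3 e4
      apply hxy
      rw [e3, e4]
      simp
    · have e2 : (x + y * I : ℂ) = (1 : ℝ) + (0 : ℝ) * I := by
        rw [hz] at h
        have h0 : c b - c a ≠ 0 := sub_ne_zero.2 hne.symm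
        have : (x + y * I - 1 : ℂ) * (c b - c a) = 0 := by linear_combination h
        rcases mul_eq_zero.1 this with h | h
        · simp
          linear_combination h
        · exact absurd h h0
      have e3 := congrArg Complex.re e2
      have e4 := congrArg Complex.im e2
      simp at e3 e4
      apply hxy
      rw [e3, e4]
      simp
    · obtain ⟨o1, o2, o3, o4⟩ := hout t ht
      rw [h] at hcase
      rcases hcase with h | h | h | h
      · exact o1 h
      · exact o2 h
      · exact o3 h
      · exact o4 h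
  constructor
  · intro v hv1 hv2
    rcases eq_or_lt_of_le hv2 with h | h
    · subst h
      apply key
      · rcases hε with rfl | rfl
        · exact ⟨1, 1, by push_cast; ring, by simp⟩
        · exact ⟨1, -1, by push_cast; ring, by simp⟩
      · right; right; right; rfl
    · obtain ⟨x, y, hz, h1, h2⟩ := hin v ⟨hv1, h⟩
      apply key
      · rcases hε with rfl | rfl
        · refine ⟨x - y, x + y, ?_, fun h => rot1 h1 h.1⟩
          rw [hz]
          push_cast
          ring_nf
          rw [I_sq]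
          ring
        · refine ⟨x + y, y - x, ?_, fun h => rot2 h1 h.1⟩
          rw [hz]
          push_cast
          ring_nf
          rw [I_sq]
          ring
      · left
        refine ⟨x, y, ?_, h1, h2⟩
        rw [hz]
        ring
  · intro u hu1 hu2
    rcases eq_or_lt_of_le hu1 with h | h
    · subst h
      apply key
      · rcases hε with rfl | rfl
        · exact ⟨0, 1, by push_cast; ring, by simp⟩
        · exact ⟨0, -1, by push_cast; ring, by simp⟩
      · right; right; left; rfl
    · obtain ⟨x, y, hz, h1, h2⟩ := hin u ⟨h, hu2⟩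
      apply key
      · rcases hε with rfl | rfl
        · refine ⟨x + y, 1 + y - x, ?_, fun h => ?_⟩
          · rw [hz]
            push_cast
            ring_nf
            rw [I_sq]
            ring
          · apply rot1 h2
            convert h.2 using 1
            · congr 1; ring
            · ring
        · refine ⟨x - y, -(1 - y - x), ?_, fun h => ?_⟩
          · rw [hz]
            push_cast
            ring_nf
            rw [I_sq]
            ring
          · apply rot2 h2
            convert h.2 using 1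
            · congr 1; ring
            · ring
      · right; left
        refine ⟨x, y, ?_, h1, h2⟩
        rw [hz]
        ring

/-- parity of a chain of arcs -/
theorem chain_even {x : ℝ → ℤ} {n : ℕ} {t : ℕ → ℝ} (h : ∀ i < n, Even (x (t (i + 1)) - x (t i))) :
    Even (x (t n) - x (t 0)) := by
  induction n with
  | zero => simp
  | succ n ih =>
    have h1 := ih fun i hi => h i (by omega)
    have h2 := h n (by omega)
    have := h2.add h1
    rwa [sub_add_sub_cancel] at this

end Pool.Agent.Q155.Cusp
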